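import Pool.Agent.H10.EC.AllDer
import Pool.Agent.H10.EC.Coe

/-!
A linear relation which holds for all coefficientwise derivations holds for all derivations of
the field of fractions over `A0`.
-/

set_option autoImplicit false

namespace Pool.Agent.H10.EL

open PowerSeries Pool.Agent.H96.FI Pool.Agent.H10.EC Pool.Agent.H10.EX

/-- P1: a general form of `EC.all_der` -/
theorem all_der_gen (K : Type) [Field K] [CharZero K] {m : ℕ} (b : Fin m → K⟦X⟧)
    (hb : ∀ i, IsAlgebraic (AK K) (b i)) (a : Fin m → FractionRing K⟦X⟧)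
    (hrel : ∀ (δ : Derivation ℤ K K) (D : K⟦X⟧ → K⟦X⟧), (∀ n y, coeff n (D y) = δ (coeff n y)) →
      ∑ i, a i * algebraMap K⟦X⟧ (FractionRing K⟦X⟧) (D (b i)) = 0)
    (D : Derivation (A0 K) (FractionRing K⟦X⟧) (FractionRing K⟦X⟧)) :
    ∑ i, a i * D (algebraMap K⟦X⟧ (FractionRing K⟦X⟧) (b i)) = 0 := by
  classical
  obtain ⟨ι, x, hx⟩ := exists_isTranscendenceBasis' ℚ K
  choose δ hδ1 hδ0 using exists_partial x hx
  choose Dc E hDc hadd hmul hE using fun i => exists_coef K (δ i)
  set φ : K⟦X⟧ →+* FractionRing K⟦X⟧ := algebraMap K⟦X⟧ (FractionRing K⟦X⟧) with hφ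
  choose TW hTW using fun l => allGood_AK x hx (b l) (hb l)
  set S : Finset ι := Finset.univ.biUnion TW with hS
  -- the coefficientwise derivations on constants and on `RQ`
  have hEC : ∀ i j, E i (φ (C (x j))) = if j = i then 1 else 0 := by
    intro i j
    rw [hE]
    have h1 : Dc i (C (x j)) = C (δ i (x j)) := by
      ext n
      rw [hDc, coeff_C, coeff_C]
      split_ifs
      · rfl
      · exact map_zero _
    rw [h1]
    by_cases hij : j = i
    · rw [if_pos hij, hij, hδ1, map_one, map_one]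
    · rw [if_neg hij, hδ0 i j hij, map_zero, map_zero]
  have hER : ∀ i, ∀ y ∈ RQ K, E i (φ y) = 0 := by
    intro i y hy
    obtain ⟨b', -, rfl⟩ := hy
    rw [hE]
    have h1 : Dc i (PowerSeries.map (algebraMap ℚ K) b') = 0 := by
      ext n
      rw [hDc, coeff_map, map_zero]
      have h2 : (algebraMap ℚ K) (coeff n b') ∈ allKer (fun y => δ i y) (fun a b => map_add _ a b)
          (fun a b => (δ i).leibniz a b) := by
        rw [eq_ratCast]
        exact SubfieldClass.ratCast_mem _ _
      exact h2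
    have h3 : Dc i ((PowerSeries.map (algebraMap ℚ K)) b') = 0 := h1
    rw [h3, map_zero]
  -- the corrected derivation
  set F : FractionRing K⟦X⟧ → FractionRing K⟦X⟧ := fun y =>
    D y - ∑ i ∈ S, D (φ (C (x i))) * E i y with hF
  have hFadd : ∀ a b, F (a + b) = F a + F b := by
    intro a b
    simp only [hF, map_add, hadd, mul_add, Finset.sum_add_distrib]
    ring
  have hFmul : ∀ a b, F (a * b) = a * F b + b * F a := by
    intro a b
    simp only [hF, hmul, Derivation.leibniz, smul_eq_mul, mul_sub, Finset.mul_sum]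
    have h1 : ∑ i ∈ S, D (φ (C (x i))) * (a * E i b + b * E i a) =
        ∑ i ∈ S, a * (D (φ (C (x i))) * E i b) + ∑ i ∈ S, b * (D (φ (C (x i))) * E i a) := by
      rw [← Finset.sum_add_distrib]
      exact Finset.sum_congr rfl (fun i _ => by ring)
    rw [h1]
    ring
  have hFR : ∀ y ∈ RQ K, F (φ y) = 0 := by
    intro y hy
    have hy0 : y ∈ A0 K := Subring.subset_closure (Or.inr hy)
    have h1 : D (φ y) = 0 := D.map_algebraMap (⟨y, hy0⟩ : A0 K)
    simp only [hF, h1, hER _ y hy, mul_zero, Finset.sum_const_zero, sub_zero]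
  have hFC : ∀ j ∈ S, F (φ (C (x j))) = 0 := by
    intro j hj
    simp only [hF, hEC, mul_ite, mul_one, mul_zero]
    rw [Finset.sum_ite_eq, if_pos hj, sub_self]
  have hFW : ∀ l, F (φ (b l)) = 0 := fun l => hTW l F hFadd hFmul hFR (fun i hi =>
    hFC i (Finset.mem_biUnion.mpr ⟨l, Finset.mem_univ l, hi⟩))
  have hDW : ∀ l, D (φ (b l)) = ∑ i ∈ S, D (φ (C (x i))) * E i (φ (b l)) :=
    fun l => sub_eq_zero.mp (hFW l)
  simp only [hDW, Finset.mul_sum]
  rw [Finset.sum_comm]
  refine Finset.sum_eq_zero fun i _ => ?_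
  have h1 := hrel (δ i) (Dc i) (hDc i)
  have h2 : ∀ l, a l * (D (φ (C (x i))) * E i (φ (b l))) =
      D (φ (C (x i))) * (a l * φ (Dc i (b l))) := by
    intro l
    rw [hE]
    ring
  simp only [h2]
  rw [← Finset.mul_sum, h1, mul_zero]

end Pool.Agent.H10.EL
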