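import Pool.Agent.H10.EL.Poly
import Pool.Agent.H46.EL.Elt

set_option autoImplicit false

open Polynomial IntermediateField

namespace Pool.Agent.H10.EL

/-- L2 -/
theorem ell_E {k M : Type} [Field k] [Field M] [CharZero M] [Algebra k M] {u w : M}
    (hu : Transcendental k u) (q : k[X]) (hq3 : q.natDegree = 3) (hsq : Squarefree q)
    (hw : w ^ 2 = aeval u q) (D : Derivation k M M) (hD : D u = 1) {r : ℕ} (γ : Fin r → k)
    (hγ : ∀ e : Fin r → ℤ, ∑ l, γ l * (e l : k) = 0 → e = 0) (N : Fin r → M)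
    (hN : ∀ l, N l ∈ IntermediateField.adjoin k {u, w}) (hN0 : ∀ l, N l ≠ 0) (T : M)
    (hT : T ∈ IntermediateField.adjoin k {u, w}) (c : k)
    (h : D T = algebraMap k M c * (1 / w) + ∑ l, algebraMap k M (γ l) * (D (N l) / N l)) :
    c = 0 :=
  Pool.Agent.H46.EL.ell_E_of
    (fun q h1 h2 γ h3 α β h4 h5 B S h6 c h7 => ell_poly q h1 h2 γ h3 α β h4 h5 B S h6 c h7)
    hu q hq3 hsq hw D hD γ hγ N hN hN0 T hT c h

end Pool.Agent.H10.EL
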