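import Mathlib

/-! Elliptic integrals of the first kind: definitions for the polynomial identity. -/

set_option autoImplicit false

open Polynomial

namespace Pool.Agent.H10.EL

/-- twice the numerator -/
noncomputable def num {k : Type} [Field k] (q α β : k[X]) : k[X] :=
  2 * α * derivative β * q - 2 * derivative α * β * q + α * β * derivative q

/-- cleared identity -/
def Cleared {k : Type} [Field k] {r : ℕ} (q : k[X]) (γ : Fin r → k) (α β : Fin r → k[X])
    (B S : k[X]) (c : k) : Prop :=
  C (2 * c) * S ^ 2 * ∏ l, (α l ^ 2 - β l ^ 2 * q) =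
    (2 * (derivative B * S - B * derivative S) * q + B * S * derivative q) *
        ∏ l, (α l ^ 2 - β l ^ 2 * q) -
      S ^ 2 * ∑ l, C (γ l) * num q (α l) (β l) *
        ∏ j ∈ Finset.univ.erase l, (α j ^ 2 - β j ^ 2 * q)

end Pool.Agent.H10.EL
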