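import Mathlib

set_option autoImplicit false

open Polynomial

namespace Pool.Agent.H10.EL

/-- the coprime case of `exact_zero` -/
theorem exact_zero_coprime {k : Type} [Field k] [CharZero k] [IsAlgClosed k] (q : k[X])
    (hq3 : q.natDegree = 3) (hsq : Squarefree q) (B S : k[X]) (hS : S ≠ 0)
    (hcop : IsCoprime B S) (c : k)
    (h : C (2 * c) * S ^ 2 =
      2 * (derivative B * S - B * derivative S) * q + B * S * derivative q) : c = 0 := by
  classical
  have hq0 : q ≠ 0 := by
    intro h
    rw [h] at hq3
    simp at hq3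
  have hsep : q.Separable := (PerfectField.separable_iff_squarefree).2 hsq
  have hS0 : S.natDegree = 0 := by
    by_contra hdeg
    have hdeg' : S.degree ≠ 0 := fun h0 => hdeg (natDegree_eq_of_degree_eq_some h0)
    obtain ⟨a, ha⟩ := IsAlgClosed.exists_root S hdeg'
    obtain ⟨T, hT, hTa⟩ := exists_eq_pow_rootMultiplicity_mul_and_not_dvd S hS a
    have hm1 : 1 ≤ S.rootMultiplicity a := (rootMultiplicity_pos hS).2 ha
    obtain ⟨m, hm⟩ : ∃ m, S.rootMultiplicity a = m + 1 := ⟨S.rootMultiplicity a - 1, by omega⟩
    rw [hm] at hT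
    have hTe : T.eval a ≠ 0 := fun h0 => hTa (dvd_iff_isRoot.2 h0)
    have hBe : B.eval a ≠ 0 := by
      intro hb
      obtain ⟨x, y, hxy⟩ := hcop
      have := congrArg (eval a) hxy
      have ha' : S.eval a = 0 := ha
      simp [hb, ha'] at this
    have hX : (X - C a : k[X]) ≠ 0 := X_sub_C_ne_zero a
    have hdS : derivative S = C ((m : k) + 1) * (X - C a) ^ m * T +
        (X - C a) ^ (m + 1) * derivative T := by
      rw [hT]
      simp only [derivative_mul, derivative_pow, derivative_sub, derivative_X, derivative_C,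
        sub_zero, mul_one]
      simp
    have h1 : C (2 * c) * (X - C a) ^ (m + 2) * T ^ 2 =
        2 * (derivative B * (X - C a) * T - B * (C ((m : k) + 1) * T +
          (X - C a) * derivative T)) * q + B * (X - C a) * T * derivative q := by
      apply mul_left_cancel₀ (pow_ne_zero m hX)
      have h2 := h
      rw [hdS, hT] at h2
      linear_combination h2
    have hqa : q.eval a = 0 := by
      have h3 := congrArg (eval a) h1
      simp only [eval_mul, eval_pow, eval_sub, eval_add, eval_X, eval_C, sub_self, mul_zero,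
        zero_mul, zero_sub, add_zero] at h3
      have h4 : (m : k) + 1 ≠ 0 := by exact_mod_cast Nat.succ_ne_zero m
      have h5 : ((2 : k[X]).eval a) = 2 := by simp
      rw [h5] at h3
      have h6 : (0 : k) ^ (m + 2) = 0 := zero_pow (by omega)
      rw [h6] at h3
      have h7 : 2 * (B.eval a) * ((m : k) + 1) * (T.eval a) * (q.eval a) = 0 := by
        linear_combination h3
      simpa [hBe, h4, hTe] using h7
    obtain ⟨q1, hq1⟩ := dvd_iff_isRoot.2 (show q.IsRoot a from hqa)
    have hdq : derivative q = q1 + (X - C a) * derivative q1 := by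
      rw [hq1]
      simp [derivative_mul]
    have hdqe : (derivative q).eval a = q1.eval a := by
      rw [hdq]; simp
    have hq1e : q1.eval a ≠ 0 := by
      rw [← hdqe]
      intro hb
      obtain ⟨x, y, hxy⟩ := hsep
      have := congrArg (eval a) hxy
      simp [hqa, hb] at this
    have h8 : C (2 * c) * (X - C a) ^ (m + 1) * T ^ 2 =
        2 * (derivative B * (X - C a) * T - B * (C ((m : k) + 1) * T +
          (X - C a) * derivative T)) * q1 + B * T * derivative q := by
      apply mul_left_cancel₀ hX
      linear_combination h1 + 2 * (derivative B * (X - C a) * T - B * (C ((m : k) + 1) * T +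
          (X - C a) * derivative T)) * hq1
    have h9 := congrArg (eval a) h8
    have h5 : ((2 : k[X]).eval a) = 2 := by simp
    simp only [eval_mul, eval_pow, eval_sub, eval_add, eval_X, eval_C, sub_self, mul_zero,
        zero_mul, zero_sub, add_zero, hdqe, h5] at h9
    have h6 : (0 : k) ^ (m + 1) = 0 := zero_pow (by omega)
    rw [h6] at h9
    have h10 : (B.eval a) * (T.eval a) * (q1.eval a) * (2 * (m : k) + 1) = 0 := by
      linear_combination h9
    have h11 : (2 * (m : k) + 1) ≠ 0 := by exact_mod_cast Nat.succ_ne_zero (2 * m)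
    simp [hBe, hTe, hq1e, h11] at h10
  obtain ⟨s, hs⟩ : ∃ s, S = C s := ⟨_, eq_C_of_natDegree_eq_zero hS0⟩
  have hs0 : s ≠ 0 := by
    rintro rfl
    exact hS (by rw [hs, C_0])
  have h12 : C (2 * c * s) = 2 * derivative B * q + B * derivative q := by
    apply mul_left_cancel₀ (C_ne_zero.2 hs0)
    have h2 := h
    rw [hs] at h2
    simp only [derivative_C, mul_zero, sub_zero] at h2
    simp only [C_mul] at h2 ⊢
    linear_combination h2
  by_cases hB : B = 0
  · rw [hB] at h12
    simp only [derivative_zero, mul_zero, zero_mul, add_zero] at h12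
    have := C_eq_zero.1 h12
    simpa [hs0] using this
  · exfalso
    have h13 : derivative (B ^ 2 * q) = C (2 * c * s) * B := by
      have hC2 : (C (2 : k) : k[X]) = 2 := map_ofNat C 2
      rw [h12, derivative_mul, derivative_pow]
      simp only [Nat.cast_ofNat, hC2, Nat.add_one_sub_one, pow_one]
      ring
    have h14 : (B ^ 2 * q).natDegree = 2 * B.natDegree + 3 := by
      rw [natDegree_mul (pow_ne_zero 2 hB) hq0, natDegree_pow, hq3]
    have h15 : (derivative (B ^ 2 * q)).natDegree = 2 * B.natDegree + 2 := by
      rw [natDegree_derivative, h14]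
      rfl
    have h16 := natDegree_C_mul_le (2 * c * s) B
    rw [← h13, h15] at h16
    omega

/-- an elliptic differential of the first kind is not exact -/
theorem exact_zero {k : Type} [Field k] [CharZero k] [IsAlgClosed k] (q : k[X])
    (hq3 : q.natDegree = 3) (hsq : Squarefree q) (B S : k[X]) (hS : S ≠ 0) (c : k)
    (h : C (2 * c) * S ^ 2 =
      2 * (derivative B * S - B * derivative S) * q + B * S * derivative q) : c = 0 := by
  classical
  have hg : EuclideanDomain.gcd B S ≠ 0 := fun h0 => hS (EuclideanDomain.gcd_eq_zero_iff.1 h0).2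
  set g := EuclideanDomain.gcd B S with hgdef
  obtain ⟨B1, hB1⟩ : g ∣ B := EuclideanDomain.gcd_dvd_left B S
  obtain ⟨S1, hS1⟩ : g ∣ S := EuclideanDomain.gcd_dvd_right B S
  have hcop : IsCoprime B1 S1 := by
    have hx := EuclideanDomain.gcd_eq_gcd_ab B S
    refine ⟨EuclideanDomain.gcdA B S, EuclideanDomain.gcdB B S, ?_⟩
    apply mul_left_cancel₀ hg
    rw [← hgdef] at hx
    calc g * (EuclideanDomain.gcdA B S * B1 + EuclideanDomain.gcdB B S * S1)
        = (g * B1) * EuclideanDomain.gcdA B S + (g * S1) * EuclideanDomain.gcdB B S := by ring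
      _ = B * EuclideanDomain.gcdA B S + S * EuclideanDomain.gcdB B S := by rw [← hB1, ← hS1]
      _ = g * 1 := by rw [mul_one, ← hx]
  have hS10 : S1 ≠ 0 := by
    rintro rfl
    exact hS (by rw [hS1, mul_zero])
  refine exact_zero_coprime q hq3 hsq B1 S1 hS10 hcop c ?_
  apply mul_left_cancel₀ (pow_ne_zero 2 hg)
  have h2 := h
  rw [hB1, hS1] at h2
  simp only [derivative_mul] at h2
  linear_combination h2

end Pool.Agent.H10.EL
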