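import Mathlib
import Pool.Agent.H10.EC.LC
import Pool.Agent.H10.EL.LNE

/-!
Relations between exact, logarithmic and one elliptic form, for series algebraic over the algebraic
constants and the rational series with property 3.
-/

set_option autoImplicit false

namespace Pool.Agent.H10.EL

open PowerSeries Pool.Agent.H96.FI Pool.Agent.H10.EX Pool.Agent.H10.EC

variable {K : Type} [Field K] [CharZero K]

/-- roots of polynomials with algebraic coefficients are algebraic -/
theorem root_alg (q : Polynomial K) (hq : q ≠ 0) (hqa : ∀ i, IsAlgebraic ℚ (q.coeff i)) (z : K)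
    (hz : q.eval z = 0) : IsAlgebraic ℚ z := by
  let F : IntermediateField ℚ K := algebraicClosure ℚ K
  have hF : Algebra.IsAlgebraic ℚ F := algebraicClosure.isAlgebraic ℚ K
  have hl : q ∈ Polynomial.lifts (algebraMap F K) := by
    rw [Polynomial.lifts_iff_coeff_lifts]
    intro i
    have h1 : q.coeff i ∈ F := mem_algebraicClosure_iff.2 (hqa i)
    exact ⟨⟨q.coeff i, h1⟩, rfl⟩
  obtain ⟨p, hp⟩ := (Polynomial.mem_lifts q).1 hl
  have h2 : IsAlgebraic F z := by
    refine ⟨p, ?_, ?_⟩
    · rintro rfl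
      apply hq
      rw [← hp, Polynomial.map_zero]
    · rw [Polynomial.aeval_def, ← Polynomial.eval_map, hp]
      exact hz
  exact h2.restrictScalars ℚ

theorem exists_nf {α β : Type} [Fintype α] [Fintype β] (y : α → K⟦X⟧)
    (hy : ∀ i, IsAlgebraic (A0 K) (y i)) (c : β → K) (hc : ∀ j, IsAlgebraic ℚ (c j)) :
    ∃ (L : Type) (_ : Field L) (_ : NumberField L) (ψ : L →+* K) (y' : α → L⟦X⟧)
      (c' : β → L), (∀ i, P3K (y' i) ∧ PowerSeries.map ψ (y' i) = y i) ∧
      ∀ j, ψ (c' j) = c j := by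
  obtain ⟨L, h1, h2, ψ, y', c', h, h'⟩ := exists_numberField K
    (fun i => y ((Fintype.equivFin α).symm i)) (fun i => hy _)
    (fun j => c ((Fintype.equivFin β).symm j)) (fun j => hc _)
  refine ⟨L, h1, h2, ψ, fun i => y' (Fintype.equivFin α i), fun j => c' (Fintype.equivFin β j),
    fun i => ?_, fun j => ?_⟩
  · have := h (Fintype.equivFin α i)
    rwa [Equiv.symm_apply_apply] at this
  · have := h' (Fintype.equivFin β j)
    rwa [Equiv.symm_apply_apply] at this

theorem LCE0 [IsAlgClosed K] {r : ℕ} (g : Fin r → K) (hga : ∀ l, IsAlgebraic ℚ (g l))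
    (hg : ∀ e : Fin r → ℤ, ∑ l, (e l : K) * g l = 0 → e = 0)
    (v u w : K⟦X⟧) (W : Fin r → K⟦X⟧) (c : K) (hca : IsAlgebraic ℚ c) (q : Polynomial K)
    (hqa : ∀ i, IsAlgebraic ℚ (q.coeff i))
    (hv : IsAlgebraic (A0 K) v) (hu : IsAlgebraic (A0 K) u) (hw : IsAlgebraic (A0 K) w)
    (hW : ∀ l, IsAlgebraic (A0 K) (W l)) (hW0 : ∀ l, constantCoeff (W l) ≠ 0)
    (hdeg : q.natDegree = 3 ∨ q.natDegree = 4) (hsq : Squarefree q)
    (hwq : w ^ 2 = Polynomial.aeval u q) (hw0 : w ≠ 0)
    (hrel : d⁄dX K v * w = C c * d⁄dX K u + w * ∑ l, C (g l) * (d⁄dX K (W l) * (W l)⁻¹)) :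
    (∀ l, d⁄dX K (W l) = 0) ∧ (c = 0 ∨ d⁄dX K u = 0) := by
  classical
  obtain ⟨ι, hι⟩ : ∃ ι : K, ι ^ 2 = -1 := IsAlgClosed.exists_pow_nat_eq (-1 : K) (by norm_num)
  -- the roots of `q`
  have hq0 : q ≠ 0 := by
    rintro rfl
    rcases hdeg with h | h <;> simp at h
  obtain ⟨d, ρ, hρa, hρ⟩ : ∃ (d : ℕ) (ρ : Fin d → K), (∀ j, IsAlgebraic ℚ (ρ j)) ∧
      q = Polynomial.C q.leadingCoeff * ∏ j, (Polynomial.X - Polynomial.C (ρ j)) := by
    have h1 := (IsAlgClosed.splits q).eq_prod_roots
    refine ⟨q.roots.toList.length, fun j => q.roots.toList[j.1], fun j => ?_, ?_⟩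
    · apply root_alg q hq0 hqa
      have h2 : q.roots.toList[j.1] ∈ q.roots.toList := List.getElem_mem _
      rw [Multiset.mem_toList] at h2
      exact (Polynomial.mem_roots hq0).1 h2
    rw [Fin.prod_univ_fun_getElem q.roots.toList (fun a => Polynomial.X - Polynomial.C a)]
    conv_lhs => rw [h1, ← Multiset.coe_toList q.roots]
    rw [Multiset.map_coe, Multiset.prod_coe]
  have hinvW : ∀ k, W k * (W k)⁻¹ = 1 := fun k => PowerSeries.mul_inv_cancel _ (hW0 k)
  obtain ⟨L, hL1, hL2, ψ, y', c', hy', hc'⟩ := exists_nf (α := Fin r ⊕ Fin 3)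
    (β := Fin r ⊕ (Fin d ⊕ Fin 3)) (Sum.elim W ![v, u, w]) (by
      rintro (l | j)
      · exact hW l
      · fin_cases j
        · exact hv
        · exact hu
        · exact hw) (Sum.elim g (Sum.elim ρ ![c, ι, q.leadingCoeff])) (by
      rintro (l | l | j)
      · exact hga l
      · exact hρa l
      · fin_cases j
        · exact hca
        · refine IsAlgebraic.of_pow (n := 2) (by norm_num) ?_
          show IsAlgebraic ℚ (ι ^ 2)
          rw [hι]
          exact (isAlgebraic_one).neg
        · exact hqa _)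
  set W' : Fin r → L⟦X⟧ := fun l => y' (.inl l) with hW'
  set v' : L⟦X⟧ := y' (.inr 0) with hv'
  set u' : L⟦X⟧ := y' (.inr 1) with hu'
  set w' : L⟦X⟧ := y' (.inr 2) with hw'
  set g' : Fin r → L := fun l => c' (.inl l) with hg'
  set c1 : L := c' (.inr (.inr 0)) with hc1
  set ι' : L := c' (.inr (.inr 1)) with hι'
  set q' : Polynomial L := Polynomial.C (c' (.inr (.inr 2))) *
    ∏ j : Fin d, (Polynomial.X - Polynomial.C (c' (.inr (.inl j)))) with hq'
  have mW : ∀ l, PowerSeries.map ψ (W' l) = W l := fun l => (hy' (.inl l)).2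
  have mv : PowerSeries.map ψ v' = v := (hy' (.inr 0)).2
  have mu : PowerSeries.map ψ u' = u := (hy' (.inr 1)).2
  have mw : PowerSeries.map ψ w' = w := (hy' (.inr 2)).2
  have mg : ∀ l, ψ (g' l) = g l := fun l => hc' (.inl l)
  have mc : ψ c1 = c := hc' (.inr (.inr 0))
  have mι : ψ ι' = ι := hc' (.inr (.inr 1))
  have mq : q'.map ψ = q := by
    rw [hq', Polynomial.map_mul, Polynomial.map_C, Polynomial.map_prod]
    conv_rhs => rw [hρ]
    have e1 : ψ (c' (.inr (.inr 2))) = q.leadingCoeff := hc' (.inr (.inr 2))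
    rw [e1]
    congr 1
    refine Finset.prod_congr rfl fun j _ => ?_
    rw [Polynomial.map_sub, Polynomial.map_X, Polynomial.map_C]
    have e2 : ψ (c' (.inr (.inl j))) = ρ j := hc' (.inr (.inl j))
    rw [e2]
  have hmapinj : Function.Injective (PowerSeries.map ψ) := by
    intro a b hab
    ext n
    apply ψ.injective
    rw [← coeff_map, hab, coeff_map]
  have hmapd : ∀ a : L⟦X⟧, PowerSeries.map ψ (d⁄dX L a) = d⁄dX K (PowerSeries.map ψ a) := by
    intro a
    ext n
    rw [coeff_map, coeff_derivative, coeff_derivative, coeff_map, map_mul, map_add, map_natCast,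
      map_one]
  have hc0 : ∀ l, constantCoeff (W' l) ≠ 0 := by
    intro k h0
    apply hW0 k
    rw [← mW k, ← coeff_zero_eq_constantCoeff_apply, coeff_map, coeff_zero_eq_constantCoeff_apply,
      h0, map_zero]
  have hinv' : ∀ k, PowerSeries.map ψ (W' k)⁻¹ = (W k)⁻¹ := by
    intro k
    have e1 : W k * PowerSeries.map ψ (W' k)⁻¹ = 1 := by
      rw [← mW k, ← map_mul, PowerSeries.mul_inv_cancel _ (hc0 k), map_one]
    linear_combination (W k)⁻¹ * e1 - (PowerSeries.map ψ (W' k)⁻¹) * hinvW k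
  have hsep : q'.Separable := by
    rw [← Polynomial.separable_map ψ, mq]
    exact (PerfectField.separable_iff_squarefree).2 hsq
  have hfin := LNE ι' (by
      apply ψ.injective
      rw [map_pow, mι, hι, map_neg, map_one]) g' (by
      intro e he
      apply hg e
      rw [← map_zero ψ, ← he, map_sum]
      refine Finset.sum_congr rfl fun l _ => ?_
      rw [map_mul, map_intCast, mg]) v' u' w' W' c1 q' (hy' (.inr 0)).1 (hy' (.inr 1)).1
      (hy' (.inr 2)).1 (fun l => (hy' (.inl l)).1) hc0 (by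
        rw [← Polynomial.natDegree_map ψ, mq]
        exact hdeg) hsep.squarefree (by
        rw [hq']
        refine Polynomial.Splits.mul (Polynomial.Splits.C _) (Polynomial.Splits.prod fun j _ => ?_)
        exact Polynomial.Splits.X_sub_C _) (by
        apply hmapinj
        rw [map_pow, mw, hwq, ← mq, ← mu, Polynomial.aeval_def, Polynomial.eval₂_map,
          Polynomial.aeval_def, Polynomial.hom_eval₂]
        congr 1
        ext a
        simp) (by
        intro h0
        apply hw0
        rw [← mw, h0, map_zero]) (by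
        apply hmapinj
        rw [map_mul, map_add, map_mul, map_mul, hmapd, hmapd, mv, mu, mw, hrel, map_sum,
          PowerSeries.map_C, mc]
        congr 2
        refine Finset.sum_congr rfl fun k _ => ?_
        rw [map_mul, map_mul, hinv', hmapd, mW, PowerSeries.map_C, mg])
  refine ⟨fun l => ?_, ?_⟩
  · rw [← mW l, ← hmapd, hfin.1 l, map_zero]
  · rcases hfin.2 with h | h
    · left
      rw [← mc, h, map_zero]
    · right
      rw [← mu, ← hmapd, h, map_zero]

end Pool.Agent.H10.EL
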