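import Mathlib
import Pool.Agent.H10.EC.Coe

/-!
The invariant form of an elliptic curve along a coefficientwise derivation.
-/

set_option autoImplicit false

namespace Pool.Agent.H10.EL

open PowerSeries Pool.Agent.H10.EC

/-- derivations kill algebraic numbers -/
theorem der_alg_md {K : Type} [Field K] [CharZero K] (δ : Derivation ℤ K K) (c : K)
    (hc : IsAlgebraic ℚ c) : δ c = 0 := by
  obtain ⟨P, hP0, hP⟩ := (IsFractionRing.isAlgebraic_iff ℤ ℚ K).2 hc
  have key : ∀ (n : ℕ) (P : Polynomial ℤ), P.natDegree = n → P ≠ 0 →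
      Polynomial.aeval c P = 0 → δ c = 0 := by
    intro n
    induction n using Nat.strong_induction_on with
    | _ n ih =>
      intro P hn hP0 hP
      have hdeg : P.natDegree ≠ 0 := by
        intro h0
        rw [Polynomial.eq_C_of_natDegree_eq_zero h0, Polynomial.aeval_C] at hP
        have h1 : P.coeff 0 = 0 := by
          have h2 : ((P.coeff 0 : ℤ) : K) = 0 := by simpa using hP
          exact_mod_cast h2
        apply hP0
        rw [Polynomial.eq_C_of_natDegree_eq_zero h0, h1, map_zero]
      have h1 : Polynomial.aeval c (Polynomial.derivative P) • δ c = 0 := by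
        rw [← Derivation.map_aeval, hP, map_zero]
      rcases smul_eq_zero.1 h1 with h2 | h2
      · refine ih _ ?_ (Polynomial.derivative P) rfl ?_ h2
        · rw [← hn]
          exact Polynomial.natDegree_derivative_lt hdeg
        · intro h3
          exact hdeg (Polynomial.derivative_eq_zero.1 h3)
      · exact h2
  exact key _ P rfl hP0 hP

/-- chain rule for a coefficientwise derivation -/
theorem CoefD_pow {K : Type} [Field K] [CharZero K] {δ : Derivation ℤ K K}
    {D : K⟦X⟧ → K⟦X⟧} (h : CoefD δ D) (u : K⟦X⟧) (n : ℕ) :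
    D (u ^ n) = (n : K⟦X⟧) * u ^ (n - 1) * D u := by
  induction n with
  | zero =>
    have h1 := h.mul 1 1
    rw [one_mul, one_mul] at h1
    have h2 : D (1 : K⟦X⟧) = 0 := left_eq_add.1 h1
    simp [h2]
  | succ n ih =>
    rw [pow_succ, h.mul, ih]
    rcases n with _ | n
    · simp
    · simp only [Nat.add_sub_cancel, pow_succ]
      push_cast
      ring

theorem CoefD_aeval {K : Type} [Field K] [CharZero K] (q : Polynomial K)
    (hqa : ∀ i, IsAlgebraic ℚ (q.coeff i)) {δ : Derivation ℤ K K}
    {D : K⟦X⟧ → K⟦X⟧} (h : CoefD δ D) (u : K⟦X⟧) :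
    D (Polynomial.aeval u q) = Polynomial.aeval u (Polynomial.derivative q) * D u := by
  have h1 : Polynomial.derivative q = ∑ i ∈ Finset.range (q.natDegree + 1),
      Polynomial.C (q.coeff i * i) * Polynomial.X ^ (i - 1) := by
    rw [Polynomial.derivative_apply, Polynomial.sum_over_range _ (by simp)]
  have h2 : ∀ c : K, Polynomial.aeval u (Polynomial.C c) = C c := fun c => by
    rw [Polynomial.aeval_C]; rfl
  rw [h1, map_sum, Finset.sum_mul, Polynomial.aeval_eq_sum_range, h.sum]
  refine Finset.sum_congr rfl fun i _ => ?_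
  have h3 : q.coeff i • u ^ i = C (q.coeff i) * u ^ i := by
    rw [PowerSeries.smul_eq_C_mul]
  rw [h3, h.mul, h.C_apply, der_alg_md δ _ (hqa i), map_zero, mul_zero, add_zero,
    CoefD_pow h, map_mul, map_pow, Polynomial.aeval_X, h2, map_mul]
  have h4 : (C ((i : ℕ) : K) : K⟦X⟧) = (i : K⟦X⟧) := map_natCast _ i
  rw [h4]
  ring

/-- P4: the invariant form along a coefficientwise derivation -/
theorem exists_mD {K : Type} [Field K] [CharZero K] (q : Polynomial K) (hsep : q.Separable)
    (hqa : ∀ i, IsAlgebraic ℚ (q.coeff i)) (u s : K⟦X⟧) (hsu : s ^ 2 = Polynomial.aeval u q)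
    (hs : s ≠ 0) {δ : Derivation ℤ K K} {D : K⟦X⟧ → K⟦X⟧} (h : CoefD δ D) :
    ∃ m : K⟦X⟧, m * s = D u ∧ (∀ e, e * s = d⁄dX K u → d⁄dX K m = D e) ∧
      (IsAlgebraic ℚ (constantCoeff u) → constantCoeff m = 0) := by
  obtain ⟨a, b, hab⟩ := hsep
  set A : K⟦X⟧ := Polynomial.aeval u a with hA
  set B : K⟦X⟧ := Polynomial.aeval u b with hB
  set Q : K⟦X⟧ := Polynomial.aeval u (Polynomial.derivative q) with hQ
  have h1 : A * s ^ 2 + B * Q = 1 := by
    rw [hsu, hA, hB, hQ, ← map_mul, ← map_mul, ← map_add, hab, map_one]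
  have hD : 2 * (s * D s) = Q * D u := by
    rw [hQ, ← CoefD_aeval q hqa h u, ← hsu, pow_two, h.mul]
    ring
  have hd : 2 * (s * d⁄dX K s) = Q * d⁄dX K u := by
    have h2 : d⁄dX K (Polynomial.aeval u q) = Q * d⁄dX K u := by
      rw [Derivation.map_aeval, smul_eq_mul]
    rw [← h2, ← hsu, pow_two, Derivation.leibniz, smul_eq_mul]
    ring
  refine ⟨A * s * D u + 2 * B * D s, ?_, ?_, ?_⟩
  · linear_combination D u * h1 + B * hD
  · intro e he
    set m := A * s * D u + 2 * B * D s with hm
    have hms : m * s = D u := by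
      rw [hm]
      linear_combination D u * h1 + B * hD
    have h3 : d⁄dX K m * s + m * d⁄dX K s = e * D s + s * D e := by
      have h4 := congrArg (fun y => d⁄dX K y) hms
      simp only [Derivation.leibniz, smul_eq_mul] at h4
      have h5 : d⁄dX K (D u) = D (e * s) := by rw [← h.der, he]
      rw [h5, h.mul] at h4
      linear_combination h4
    have h6 : (d⁄dX K m - D e) * (2 * s ^ 2) = 0 := by
      linear_combination 2 * s * h3 + e * hD - m * hd - e * Q * hms + m * Q * he
    have h7 : (2 * s ^ 2 : K⟦X⟧) ≠ 0 := by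
      have : (2 : K⟦X⟧) ≠ 0 := by
        intro h8
        have h9 := congrArg (constantCoeff (R := K)) h8
        have h10 : (constantCoeff (R := K) (2 : K⟦X⟧)) = 2 := map_ofNat _ 2
        rw [h10, map_zero] at h9
        exact two_ne_zero h9
      exact mul_ne_zero this (pow_ne_zero 2 hs)
    exact sub_eq_zero.1 ((mul_eq_zero.1 h6).resolve_right h7)
  · intro hu0
    have h2 : constantCoeff (D u) = 0 := by
      rw [← coeff_zero_eq_constantCoeff_apply, h.coef, coeff_zero_eq_constantCoeff_apply]
      exact der_alg_md δ _ hu0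
    have h3 : constantCoeff s * constantCoeff (D s) = 0 := by
      have h4 := congrArg (constantCoeff (R := K)) hD
      simp only [map_mul, h2, mul_zero] at h4
      have h5 : (constantCoeff (R := K) (2 : K⟦X⟧)) = 2 := map_ofNat _ 2
      rw [h5] at h4
      exact (mul_eq_zero.1 h4).resolve_left two_ne_zero
    have h4 : constantCoeff (D s) = 0 := by
      rcases mul_eq_zero.1 h3 with h5 | h5
      · rw [← coeff_zero_eq_constantCoeff_apply, h.coef, coeff_zero_eq_constantCoeff_apply, h5,
          map_zero]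
      · exact h5
    simp only [map_add, map_mul, h2, h4, mul_zero, add_zero]

end Pool.Agent.H10.EL
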