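import Mathlib
import Pool.Agent.H10.EC.LC
import Pool.Agent.H10.EL.LCE0
import Pool.Agent.H10.EL.Zero
import Pool.Agent.H10.EL.AllGen
import Pool.Agent.H10.EL.MD

/-!
Relations between exact, logarithmic and one elliptic form, for series algebraic over the constants
and the rational series with property 3, with arbitrary constants.
-/

set_option autoImplicit false

namespace Pool.Agent.H10.EL

open PowerSeries Pool.Agent.H96.FI Pool.Agent.H10.EX Pool.Agent.H10.EC

variable {K : Type} [Field K] [CharZero K]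

theorem exists_int0 (e : K⟦X⟧) : ∃ y : K⟦X⟧, d⁄dX K y = e ∧ constantCoeff y = 0 := by
  refine ⟨PowerSeries.mk fun n => if n = 0 then 0 else coeff (n - 1) e / n, ?_, ?_⟩
  · ext n
    rw [coeff_derivative, coeff_mk, if_neg (Nat.succ_ne_zero n)]
    have : ((n : K) + 1) ≠ 0 := by exact_mod_cast Nat.succ_ne_zero n
    push_cast
    field_simp
  · rw [← coeff_zero_eq_constantCoeff_apply, coeff_mk, if_pos rfl]

/-- the commutation with an additional form -/
theorem comm_relE {r : ℕ} {δ : Derivation ℤ K K} {D : K⟦X⟧ → K⟦X⟧} (h : CoefD δ D)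
    (c : K) (γ : Fin r → K) (v e m : K⟦X⟧) (hem : d⁄dX K m = D e) (W : Fin r → K⟦X⟧)
    (hW0 : ∀ l, constantCoeff (W l) ≠ 0)
    (hrel : d⁄dX K v = C c * e + ∑ l, C (γ l) * (d⁄dX K (W l) * (W l)⁻¹)) :
    d⁄dX K (D v - C c * m - ∑ l, C (γ l) * (D (W l) * (W l)⁻¹)) =
      C (δ c) * e + ∑ l, C (δ (γ l)) * (d⁄dX K (W l) * (W l)⁻¹) := by
  obtain ⟨y, hy, -⟩ := exists_int0 e
  have h1 := comm_rel h γ (v - C c * y) W hW0 (by
    rw [map_sub, hrel, Derivation.leibniz, der_const, smul_zero, add_zero, smul_eq_mul, hy]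
    ring)
  have h2 : D (v - C c * y) = D v - C c * D y - y * C (δ c) := by
    have e1 := h.add (v - C c * y) (C c * y)
    rw [sub_add_cancel, h.mul, h.C_apply] at e1
    linear_combination -e1
  rw [h2] at h1
  have h3 : d⁄dX K (D y) = D e := by rw [← h.der, hy]
  have h4 : D v - C c * m - ∑ l, C (γ l) * (D (W l) * (W l)⁻¹) =
      (D v - C c * D y - y * C (δ c) - ∑ l, C (γ l) * (D (W l) * (W l)⁻¹)) +
        (C c * D y + y * C (δ c) - C c * m) := by ring
  rw [h4, map_add, h1, map_sub, map_add, Derivation.leibniz, Derivation.leibniz,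
    Derivation.leibniz, der_const, der_const, smul_zero, smul_zero, h3, hem, hy]
  simp only [smul_eq_mul, mul_zero, add_zero, zero_add]
  ring

/-- polynomials with algebraic coefficients over `A0` -/
theorem exists_polyA0 (q : Polynomial K) (hqa : ∀ i, IsAlgebraic ℚ (q.coeff i)) :
    ∃ q' : Polynomial (A0 K), q'.natDegree = q.natDegree ∧
      q'.map (algebraMap (A0 K) (FractionRing K⟦X⟧)) =
        q.map (algebraMap K (FractionRing K⟦X⟧)) := by
  let F : IntermediateField ℚ K := algebraicClosure ℚ K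
  have hl : q ∈ Polynomial.lifts (algebraMap F K) := by
    rw [Polynomial.lifts_iff_coeff_lifts]
    intro i
    have h1 : q.coeff i ∈ F := mem_algebraicClosure_iff.2 (hqa i)
    exact ⟨⟨q.coeff i, h1⟩, rfl⟩
  obtain ⟨p, hp⟩ := (Polynomial.mem_lifts q).1 hl
  let φ : F →+* A0 K :=
    { toFun := fun c => ⟨C (c : K), Subring.subset_closure
        (Or.inl ⟨c, mem_algebraicClosure_iff.1 c.2, rfl⟩)⟩
      map_one' := Subtype.ext (map_one _)
      map_mul' := fun a b => Subtype.ext (map_mul _ _ _)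
      map_zero' := Subtype.ext (map_zero _)
      map_add' := fun a b => Subtype.ext (map_add _ _ _) }
  refine ⟨p.map φ, ?_, ?_⟩
  · rw [← hp, Polynomial.natDegree_map, Polynomial.natDegree_map]
  · rw [← hp, Polynomial.map_map, Polynomial.map_map]
    congr 1

theorem alg_eval {A M : Type} [CommRing A] [IsDomain A] [Field M] [Algebra A M] (p : Polynomial A)
    (z : M) (hz : IsAlgebraic A z) : IsAlgebraic A (Polynomial.aeval z p) := by
  induction p using Polynomial.induction_on' with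
  | add p1 p2 h1 h2 =>
    rw [map_add]
    exact h1.add h2
  | monomial k c =>
    rw [Polynomial.aeval_monomial]
    exact (isAlgebraic_algebraMap c).mul (hz.pow k)

/-- the case of algebraic, rationally independent coefficients, normalized -/
theorem algcaseE [IsAlgClosed K] {s : ℕ} (β : Fin s → K) (hβ : ∀ k, IsAlgebraic ℚ (β k))
    (hind : ∀ e : Fin s → ℤ, ∑ l, (e l : K) * β l = 0 → e = 0) (c : K) (hc : IsAlgebraic ℚ c)
    (q : Polynomial K) (hdeg : q.natDegree = 3) (hsq : Squarefree q)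
    (hqa : ∀ i, IsAlgebraic ℚ (q.coeff i)) (u t e : K⟦X⟧) (htu : t ^ 2 = Polynomial.aeval u q)
    (ht0 : t ≠ 0) (he : e * t = d⁄dX K u) (hu0 : IsAlgebraic ℚ (constantCoeff u))
    (V : K⟦X⟧) (U : Fin s → K⟦X⟧)
    (hV : IsAlgebraic (AK K) V) (hU : ∀ k, IsAlgebraic (AK K) (U k))
    (hu : IsAlgebraic (AK K) u)
    (hV0 : constantCoeff V = 0) (hU0 : ∀ k, constantCoeff (U k) = 1)
    (hrel : d⁄dX K V = C c * e + ∑ k, C (β k) * (d⁄dX K (U k) * (U k)⁻¹)) :
    (∀ k, d⁄dX K (U k) = 0) ∧ (c = 0 ∨ d⁄dX K u = 0) := by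
  classical
  by_cases hc0 : c = 0
  · refine ⟨fun k => ?_, Or.inl hc0⟩
    refine algcase β hβ hind V U hV hU hV0 hU0 ?_ k
    rw [hrel, hc0, map_zero, zero_mul, zero_add]
  have hchar : CharZero (FractionRing K⟦X⟧) :=
    charZero_of_injective_algebraMap (algebraMap K (FractionRing K⟦X⟧)).injective
  have hsep : q.Separable := PerfectField.separable_iff_squarefree.2 hsq
  have hU0' : ∀ k, constantCoeff (U k) ≠ 0 := fun k => by rw [hU0 k]; exact one_ne_zero
  have hUne : ∀ k, U k ≠ 0 := by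
    intro k h0
    apply hU0' k
    rw [h0, map_zero]
  have hinv : ∀ k, U k * (U k)⁻¹ = 1 := fun k => PowerSeries.mul_inv_cancel _ (hU0' k)
  set J := algebraMap K⟦X⟧ (FractionRing K⟦X⟧) with hJ
  have hinj : Function.Injective J := IsFractionRing.injective K⟦X⟧ (FractionRing K⟦X⟧)
  have hJ0 : ∀ y : K⟦X⟧, y ≠ 0 → J y ≠ 0 := fun y hy h => hy (hinj (h.trans (map_zero J).symm))
  have hJC : ∀ c : K, J (C c) = algebraMap K (FractionRing K⟦X⟧) c := by
    intro c
    rw [IsScalarTower.algebraMap_apply K K⟦X⟧ (FractionRing K⟦X⟧)]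
    rfl
  have hJt := hJ0 t ht0
  -- the relation for the coefficientwise derivations
  have hcoef : ∀ (δ : Derivation ℤ K K) (D : K⟦X⟧ → K⟦X⟧), (∀ n y, coeff n (D y) = δ (coeff n y)) →
      J (D V) - algebraMap K (FractionRing K⟦X⟧) c * (J (D u) / J t) -
        ∑ k, algebraMap K (FractionRing K⟦X⟧) (β k) * (J (D (U k)) / J (U k)) = 0 := by
    intro δ D hD
    have h := CoefD.of hD
    obtain ⟨m, hm, hme, hm0⟩ := exists_mD q hsep hqa u t htu ht0 h
    have h1 := comm_relE h c β V e m (hme e he) U hU0' hrel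
    have hz : ∑ l, C (δ (β l)) * (d⁄dX K (U l) * (U l)⁻¹) = 0 :=
      Finset.sum_eq_zero fun k _ => by rw [der_algebraic δ _ (hβ k), map_zero, zero_mul]
    rw [hz, der_algebraic δ _ hc, map_zero, zero_mul, add_zero] at h1
    have h2 : D V - C c * m - ∑ k, C (β k) * (D (U k) * (U k)⁻¹) = 0 := by
      apply PowerSeries.derivative.ext
      · rw [h1, map_zero]
      · rw [map_zero, map_sub, map_sub, map_sum]
        have e1 : constantCoeff (D V) = 0 := by
          rw [← coeff_zero_eq_constantCoeff_apply, hD, coeff_zero_eq_constantCoeff_apply, hV0,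
            map_zero]
        have e2 : ∀ k, constantCoeff (D (U k)) = 0 := by
          intro k
          rw [← coeff_zero_eq_constantCoeff_apply, hD, coeff_zero_eq_constantCoeff_apply, hU0,
            Derivation.map_one_eq_zero]
        rw [e1, map_mul, hm0 hu0, mul_zero, sub_zero, Finset.sum_eq_zero, sub_zero]
        intro k _
        rw [map_mul, map_mul, e2, zero_mul, mul_zero]
    have h3 := congrArg J h2
    rw [map_zero, map_sub, map_sub, map_sum, map_mul, hJC] at h3
    rw [← h3]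
    congr 1
    · congr 2
      rw [div_eq_iff hJt, ← map_mul, hm]
    · refine Finset.sum_congr rfl fun k _ => ?_
      rw [map_mul, map_mul, hJC]
      congr 1
      rw [div_eq_iff (hJ0 _ (hUne k)), mul_assoc, ← map_mul, mul_comm (U k)⁻¹, hinv, map_one,
        mul_one]
  have hall : ∀ D : Derivation (A0 K) (FractionRing K⟦X⟧) (FractionRing K⟦X⟧),
      D (J V) = algebraMap K (FractionRing K⟦X⟧) c * (D (J u) / J t) +
        ∑ k, algebraMap K (FractionRing K⟦X⟧) (β k) * (D (J (U k)) / J (U k)) := by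
    intro D
    have h1 := all_der_gen K (Fin.cons V (Fin.cons u U) : Fin (s + 1 + 1) → K⟦X⟧) (by
      intro i
      refine Fin.cases ?_ (fun i => ?_) i
      · exact hV
      · refine Fin.cases ?_ (fun k => ?_) i
        · exact hu
        · exact hU k)
      (Fin.cons 1 (Fin.cons (-(algebraMap K (FractionRing K⟦X⟧) c / J t))
        (fun k => -(algebraMap K (FractionRing K⟦X⟧) (β k) / J (U k)))) :
          Fin (s + 1 + 1) → FractionRing K⟦X⟧) (by
      intro δ D hD
      have h2 := hcoef δ D hD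
      rw [Fin.sum_univ_succ, Fin.sum_univ_succ]
      simp only [Fin.cons_zero, Fin.cons_succ]
      rw [← h2, sub_eq_add_neg, sub_eq_add_neg, ← Finset.sum_neg_distrib, add_assoc]
      congr 1
      · rw [one_mul]
      · congr 1
        · ring
        · refine Finset.sum_congr rfl fun k _ => ?_
          ring) D
    rw [Fin.sum_univ_succ, Fin.sum_univ_succ] at h1
    simp only [Fin.cons_zero, Fin.cons_succ] at h1
    have h2 : ∑ k, algebraMap K (FractionRing K⟦X⟧) (β k) * (D (J (U k)) / J (U k)) =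
        -∑ k, -(algebraMap K (FractionRing K⟦X⟧) (β k) / J (U k)) * D (J (U k)) := by
      rw [← Finset.sum_neg_distrib]
      refine Finset.sum_congr rfl fun k _ => ?_
      ring
    rw [h2]
    linear_combination h1
  -- Rosenlicht's lemma over `A0`
  have hinj0 : Function.Injective (algebraMap (A0 K) (FractionRing K⟦X⟧)) := by
    intro a b hab
    exact Subtype.ext (hinj hab)
  have hmem0 : ∀ z : K, IsAlgebraic ℚ z → (C z : K⟦X⟧) ∈ A0 K := fun z hz =>
    Subring.subset_closure (Or.inl ⟨z, hz, rfl⟩)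
  have hβA : ∀ e : Fin s → ℤ, ∑ l, (e l : FractionRing K⟦X⟧) *
      algebraMap (A0 K) (FractionRing K⟦X⟧) (⟨C (β l), hmem0 _ (hβ l)⟩ : A0 K) = 0 → e = 0 := by
    intro e he
    apply hind e
    apply (algebraMap K (FractionRing K⟦X⟧)).injective
    rw [map_zero, map_sum, ← he]
    refine Finset.sum_congr rfl fun l _ => ?_
    rw [map_mul, map_intCast, ← hJC]
    rfl
  obtain ⟨q', hq'deg, hq'map⟩ := exists_polyA0 q hqa
  have hJtu : J t ^ 2 = Polynomial.aeval (J u) q' := by
    have e1 : Polynomial.aeval (J u) q' = Polynomial.aeval (J u) q := by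
      rw [Polynomial.aeval_def, ← Polynomial.eval_map, hq'map, Polynomial.eval_map,
        ← Polynomial.aeval_def]
    rw [e1, ← map_pow, htu]
    exact (Polynomial.aeval_algebraMap_apply (FractionRing K⟦X⟧) u q).symm
  have huA : IsAlgebraic (A0 K) (J u) := by
    have h1 := ell_zero hinj0 (fun k => (⟨C (β k), hmem0 _ (hβ k)⟩ : A0 K)) hβA
      (fun k => J (U k)) (fun k => hJ0 _ (hUne k)) (J V) (J u) (J t) q'
      (Or.inl (hq'deg.trans hdeg)) (by
        rw [hq'map]
        exact hsep.map) hJtu (⟨C c, hmem0 _ hc⟩ : A0 K) (by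
        intro D
        rw [hall D]
        have e1 : algebraMap K (FractionRing K⟦X⟧) c =
            algebraMap (A0 K) (FractionRing K⟦X⟧) (⟨C c, hmem0 _ hc⟩ : A0 K) := by
          rw [← hJC]
          rfl
        have e2 : ∀ l, algebraMap K (FractionRing K⟦X⟧) (β l) =
            algebraMap (A0 K) (FractionRing K⟦X⟧) (⟨C (β l), hmem0 _ (hβ l)⟩ : A0 K) := by
          intro l
          rw [← hJC]
          rfl
        rw [e1]
        simp only [e2])
    rcases h1 with h1 | h1
    · exfalso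
      apply hc0
      have h2 : (C c : K⟦X⟧) = 0 := congrArg Subtype.val h1
      have h3 := congrArg constantCoeff h2
      rwa [constantCoeff_C, map_zero] at h3
    · exact h1
  have htA : IsAlgebraic (A0 K) (J t) := by
    refine IsAlgebraic.of_pow (n := 2) (by norm_num) ?_
    rw [hJtu]
    exact alg_eval q' _ huA
  have hall' : ∀ D : Derivation (A0 K) (FractionRing K⟦X⟧) (FractionRing K⟦X⟧),
      D (J V) = ∑ k, algebraMap K (FractionRing K⟦X⟧) (β k) * (D (J (U k)) / J (U k)) := by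
    intro D
    rw [hall D, der_alg hinj0 D (fun a b => map_add D a b)
      (fun a b => by rw [Derivation.leibniz, smul_eq_mul, smul_eq_mul])
      (fun a => D.map_algebraMap a) _ huA, zero_div, mul_zero, zero_add]
  have hUA : ∀ k, IsAlgebraic (A0 K) (J (U k)) := by
    intro k
    refine rosenlicht hinj0 (fun k => (⟨C (β k), hmem0 _ (hβ k)⟩ : A0 K)) hβA
      (fun k => J (U k)) (fun k => hJ0 _ (hUne k)) (J V) ?_ k
    intro D
    rw [hall' D]
    refine Finset.sum_congr rfl fun l _ => ?_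
    rw [← hJC]
    rfl
  have hVA : IsAlgebraic (A0 K) (J V) := by
    by_contra hcon
    obtain ⟨D, hD⟩ := exists_derivation (A := A0 K) _ hcon
    rw [hall' D, Finset.sum_eq_zero] at hD
    · exact zero_ne_one hD
    · intro k _
      rw [der_alg hinj0 D (fun a b => map_add D a b)
        (fun a b => by rw [Derivation.leibniz, smul_eq_mul, smul_eq_mul])
        (fun a => D.map_algebraMap a) _ (hUA k), zero_div, mul_zero]
  -- down to a number field
  exact LCE0 β hβ hind V u t U c hc q hqa ((algA0_iff V).1 hVA) ((algA0_iff u).1 huA)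
    ((algA0_iff t).1 htA) (fun k => (algA0_iff (U k)).1 (hUA k)) hU0' (Or.inl hdeg) hsq htu ht0 (by
      rw [hrel, ← he]
      ring)

theorem algRestE {r : ℕ} {δ : Derivation ℤ K K} {D : K⟦X⟧ → K⟦X⟧} (h : CoefD δ D) (c : K)
    (γ : Fin r → K) (v m : K⟦X⟧) (hv : IsAlgebraic (AK K) v) (hm : IsAlgebraic (AK K) m)
    (W : Fin r → K⟦X⟧)
    (hW : ∀ l, IsAlgebraic (AK K) (W l)) (hW0 : ∀ l, constantCoeff (W l) ≠ 0) :
    IsAlgebraic (AK K) (D v - C c * m - ∑ l, C (γ l) * (D (W l) * (W l)⁻¹)) := by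
  have h1 : D v - C c * m - ∑ l, C (γ l) * (D (W l) * (W l)⁻¹) =
      (D v - ∑ l, C (γ l) * (D (W l) * (W l)⁻¹)) - C c * m := by ring
  rw [h1]
  exact (algRest h γ v hv W hW hW0).sub ((algC c).mul hm)

theorem LCG [IsAlgClosed K] {r : ℕ} (g : Fin r → K)
    (hg : ∀ e : Fin r → ℤ, ∑ l, (e l : K) * g l = 0 → e = 0) (c : K)
    (q : Polynomial K) (hdeg : q.natDegree = 3) (hsq : Squarefree q)
    (hqa : ∀ i, IsAlgebraic ℚ (q.coeff i)) (u t e : K⟦X⟧) (htu : t ^ 2 = Polynomial.aeval u q)
    (ht0 : t ≠ 0) (he : e * t = d⁄dX K u) (hu0 : IsAlgebraic ℚ (constantCoeff u))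
    (hdu : d⁄dX K u ≠ 0)
    (v : K⟦X⟧) (W : Fin r → K⟦X⟧) (hv : IsAlgebraic (AK K) v) (hu : IsAlgebraic (AK K) u)
    (ht : IsAlgebraic (AK K) t) (hW : ∀ l, IsAlgebraic (AK K) (W l))
    (hW0 : ∀ l, constantCoeff (W l) ≠ 0)
    (hrel : d⁄dX K v = C c * e + ∑ l, C (g l) * (d⁄dX K (W l) * (W l)⁻¹)) :
    (∀ l, d⁄dX K (W l) = 0) ∧ c = 0 := by
  classical
  have hsep : q.Separable := PerfectField.separable_iff_squarefree.2 hsq
  set lw : Fin r → K⟦X⟧ := fun l => d⁄dX K (W l) * (W l)⁻¹ with hlw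
  have hinv : ∀ k, W k * (W k)⁻¹ = 1 := fun k => PowerSeries.mul_inv_cancel _ (hW0 k)
  let Rel : Submodule K (Fin (r + 1) → K) :=
    { carrier := {γ | ∃ v : K⟦X⟧, IsAlgebraic (AK K) v ∧
        d⁄dX K v = C (γ 0) * e + ∑ l : Fin r, C (γ l.succ) * lw l}
      add_mem' := by
        rintro a b ⟨v1, h1, h2⟩ ⟨v2, h3, h4⟩
        refine ⟨v1 + v2, h1.add h3, ?_⟩
        have e1 : ∑ l : Fin r, C ((a + b) l.succ) * lw l =
            ∑ l : Fin r, C (a l.succ) * lw l + ∑ l : Fin r, C (b l.succ) * lw l := by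
          rw [← Finset.sum_add_distrib]
          refine Finset.sum_congr rfl fun l _ => ?_
          rw [Pi.add_apply, map_add, add_mul]
        rw [map_add, h2, h4, e1, Pi.add_apply, map_add]
        ring
      zero_mem' := by
        refine ⟨0, isAlgebraic_zero, ?_⟩
        rw [map_zero, Finset.sum_eq_zero, Pi.zero_apply, map_zero, zero_mul, add_zero]
        intro l _
        rw [Pi.zero_apply, map_zero, zero_mul]
      smul_mem' := by
        rintro c a ⟨v1, h1, h2⟩
        refine ⟨C c * v1, (algC c).mul h1, ?_⟩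
        have e1 : ∑ l : Fin r, C ((c • a) l.succ) * lw l =
            C c * ∑ l : Fin r, C (a l.succ) * lw l := by
          rw [Finset.mul_sum]
          refine Finset.sum_congr rfl fun l _ => ?_
          rw [Pi.smul_apply, smul_eq_mul, map_mul, mul_assoc]
        rw [Derivation.leibniz, der_const, smul_zero, add_zero, smul_eq_mul, h2, e1, Pi.smul_apply,
          smul_eq_mul, map_mul]
        ring }
  have hRel : ∀ γ, γ ∈ Rel ↔ ∃ v : K⟦X⟧, IsAlgebraic (AK K) v ∧
      d⁄dX K v = C (γ 0) * e + ∑ l : Fin r, C (γ l.succ) * lw l := fun γ => Iff.rfl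
  have hP : ∀ δ : Derivation ℤ K K, ∀ γ ∈ Rel, (fun i => δ (γ i)) ∈ Rel := by
    rintro δ γ ⟨v1, h1, h2⟩
    obtain ⟨D, E, hD, -, -, -⟩ := exists_coef K δ
    have h := CoefD.of hD
    obtain ⟨m, hm, hme, -⟩ := exists_mD q hsep hqa u t htu ht0 h
    have hmA : IsAlgebraic (AK K) m := by
      rw [← algAK_iff]
      have hJt : algebraMap K⟦X⟧ (FractionRing K⟦X⟧) t ≠ 0 := by
        intro h0
        apply ht0
        apply IsFractionRing.injective K⟦X⟧ (FractionRing K⟦X⟧)
        rw [h0, map_zero]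
      have e1 : algebraMap K⟦X⟧ (FractionRing K⟦X⟧) m =
          algebraMap K⟦X⟧ (FractionRing K⟦X⟧) (D u) * (algebraMap K⟦X⟧ (FractionRing K⟦X⟧) t)⁻¹ := by
        rw [← hm, map_mul, mul_assoc, mul_inv_cancel₀ hJt, mul_one]
      rw [e1]
      exact ((algAK_iff _).2 (algD h u hu)).mul ((algAK_iff _).2 ht).inv
    refine ⟨D v1 - C (γ 0) * m - ∑ l : Fin r, C (γ l.succ) * (D (W l) * (W l)⁻¹), ?_,
      comm_relE h (γ 0) (fun l : Fin r => γ l.succ) v1 e m (hme e he) W hW0 h2⟩
    exact algRestE h (γ 0) (fun l : Fin r => γ l.succ) v1 m h1 hmA W hW hW0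
  have hgspan := mem_span_alg K Rel hP (Fin.cons c g) ((hRel _).2 ⟨v, hv, hrel⟩)
  set S : Set (Fin (r + 1) → K) := {γ | γ 0 = 0 ∧ ∃ a : Fin r → ℤ,
    (∀ i : Fin r, γ i.succ = (a i : K)) ∧ ∑ i, (a i : K⟦X⟧) * lw i = 0} with hS
  have hle : Submodule.span K {γ | γ ∈ Rel ∧ ∀ i, IsAlgebraic ℚ (γ i)} ≤ Submodule.span K S := by
    rw [Submodule.span_le]
    rintro γ ⟨⟨v1, h1, h2⟩, hγ⟩
    obtain ⟨s, N, β, a, hN, hNγ, hind, hβspan⟩ := exists_basis_span (fun i : Fin r => γ i.succ)
    have hβ : ∀ k, IsAlgebraic ℚ (β k) := fun k =>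
      isAlg_of_span (fun i : Fin r => γ i.succ) (fun i => hγ _) _ (hβspan k)
    choose U hU0 hUalg hUlog using fun k => exists_prod_units W hW0 hW (fun i => a i k)
    have hUinv : ∀ k, U k * (U k)⁻¹ = 1 := fun k => PowerSeries.mul_inv_cancel _ (hU0 k)
    set U' : Fin s → K⟦X⟧ := fun k => C (constantCoeff (U k))⁻¹ * U k with hU'
    set V : K⟦X⟧ := (N : K⟦X⟧) * v1 - C (constantCoeff ((N : K⟦X⟧) * v1)) with hV
    have hV0 : constantCoeff V = 0 := by
      rw [hV, map_sub, constantCoeff_C, sub_self]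
    have hU'0 : ∀ k, constantCoeff (U' k) = 1 := by
      intro k
      rw [hU']
      simp only
      rw [map_mul, constantCoeff_C, inv_mul_cancel₀ (hU0 k)]
    have hVA : IsAlgebraic (AK K) V := algNV N v1 h1 _
    have hU'A : ∀ k, IsAlgebraic (AK K) (U' k) := fun k => algCU _ (U k) (hUalg k)
    have hlogU : ∀ k, d⁄dX K (U' k) * (U' k)⁻¹ = ∑ i, (a i k : K⟦X⟧) * lw i := by
      intro k
      have e1 := hUlog k (d⁄dX K) (fun a b => map_add _ a b)
        (fun a b => by rw [Derivation.leibniz, smul_eq_mul, smul_eq_mul])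
      rw [← e1]
      have e2 : U' k * (U' k)⁻¹ = 1 := PowerSeries.mul_inv_cancel _ (by
        rw [hU'0 k]; exact one_ne_zero)
      have e3 : d⁄dX K (U' k) = C (constantCoeff (U k))⁻¹ * d⁄dX K (U k) := by
        rw [hU']
        simp only
        rw [Derivation.leibniz, der_const, smul_zero, add_zero, smul_eq_mul]
      have e4 : U' k = C (constantCoeff (U k))⁻¹ * U k := rfl
      rw [e3]
      have e5 := hUinv k
      rw [e4] at e2
      rw [e4]
      linear_combination (d⁄dX K (U k) * (U k)⁻¹) * e2 -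
        (C (constantCoeff (U k))⁻¹ * d⁄dX K (U k) *
          (C (constantCoeff (U k))⁻¹ * U k)⁻¹) * e5
    have hNC : (N : K⟦X⟧) = C (N : K) := (map_natCast (C : K →+* K⟦X⟧) N).symm
    have hrelV : d⁄dX K V = C ((N : K) * γ 0) * e +
        ∑ k, C (β k) * (d⁄dX K (U' k) * (U' k)⁻¹) := by
      have e1 : d⁄dX K V = (N : K⟦X⟧) * d⁄dX K v1 := by
        rw [hV, map_sub, der_const, sub_zero, Derivation.leibniz, Derivation.map_natCast,
          smul_zero, add_zero, smul_eq_mul]
      have e2 : ∀ i : Fin r, (N : K⟦X⟧) * (C (γ i.succ) * lw i) =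
          ∑ k, C (β k) * ((a i k : K⟦X⟧) * lw i) := by
        intro i
        have e3 := congrArg (C : K → K⟦X⟧) (hNγ i)
        rw [map_mul, map_natCast, map_sum] at e3
        rw [← mul_assoc, e3, Finset.sum_mul]
        refine Finset.sum_congr rfl fun k _ => ?_
        rw [map_mul, map_intCast]
        ring
      have e4 : (N : K⟦X⟧) * ∑ l : Fin r, C (γ l.succ) * lw l =
          ∑ k, C (β k) * ∑ i, (a i k : K⟦X⟧) * lw i := by
        rw [Finset.mul_sum, Finset.sum_congr rfl fun i _ => e2 i, Finset.sum_comm]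
        refine Finset.sum_congr rfl fun k _ => ?_
        rw [Finset.mul_sum]
      simp only [hlogU]
      rw [e1, h2, ← e4, map_mul, ← hNC]
      ring
    have hkey := algcaseE β hβ hind ((N : K) * γ 0)
      ((isAlgebraic_algebraMap (N : ℚ)).mul (hγ 0) |> fun h => by simpa using h)
      q hdeg hsq hqa u t e htu ht0 he hu0 V U' hVA hU'A hu hV0 hU'0 hrelV
    have hN0 : (N : K) ≠ 0 := by exact_mod_cast hN
    have hγ0 : γ 0 = 0 := (mul_eq_zero.1 (hkey.2.resolve_right hdu)).resolve_left hN0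
    have hzero : ∀ k, ∑ i, (a i k : K⟦X⟧) * lw i = 0 := by
      intro k
      rw [← hlogU k, hkey.1 k, zero_mul]
    -- `γ` is a combination of the integer relations
    have hγsum : γ = ∑ k, ((N : K)⁻¹ * β k) •
        (Fin.cons 0 (fun i => ((a i k : ℤ) : K)) : Fin (r + 1) → K) := by
      funext i
      rw [Finset.sum_apply]
      refine Fin.cases ?_ (fun i => ?_) i
      · rw [hγ0, Finset.sum_eq_zero]
        intro k _
        rw [Pi.smul_apply, Fin.cons_zero, smul_zero]
      · have e1 := hNγ i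
        have e2 : γ i.succ = (N : K)⁻¹ * ∑ l, (a i l : K) * β l := by
          rw [← e1, ← mul_assoc, inv_mul_cancel₀ hN0, one_mul]
        rw [e2, Finset.mul_sum]
        refine Finset.sum_congr rfl fun k _ => ?_
        rw [Pi.smul_apply, Fin.cons_succ, smul_eq_mul]
        ring
    rw [hγsum]
    refine Submodule.sum_mem _ fun k _ => Submodule.smul_mem _ _ (Submodule.subset_span ?_)
    exact ⟨Fin.cons_zero _ _, fun i => a i k, fun i => Fin.cons_succ _ _ _, hzero k⟩
  have hmem := hle hgspan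
  have hc : c = 0 := by
    have h1 : Submodule.span K S ≤ LinearMap.ker
        (LinearMap.proj (R := K) (φ := fun _ : Fin (r + 1) => K) 0) := by
      rw [Submodule.span_le]
      intro γ hγ
      exact hγ.1
    have h2 := h1 hmem
    rw [LinearMap.mem_ker, LinearMap.proj_apply, Fin.cons_zero] at h2
    exact h2
  have hg' : g ∈ Submodule.span K {γ : Fin r → K | ∃ a : Fin r → ℤ, (∀ i, γ i = (a i : K)) ∧
      ∑ i, (a i : K⟦X⟧) * lw i = 0} := by
    have h1 : Submodule.span K S ≤ Submodule.comap (LinearMap.funLeft K K Fin.succ)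
        (Submodule.span K {γ : Fin r → K | ∃ a : Fin r → ℤ, (∀ i, γ i = (a i : K)) ∧
          ∑ i, (a i : K⟦X⟧) * lw i = 0}) := by
      rw [Submodule.span_le]
      rintro γ ⟨-, a, ha, ha'⟩
      exact Submodule.subset_span ⟨a, ha, ha'⟩
    have h2 := h1 hmem
    exact h2
  refine ⟨fun l => ?_, hc⟩
  have h0 := all_zero lw g hg hg' l
  have h1 : d⁄dX K (W l) * (W l)⁻¹ = 0 := h0
  linear_combination (W l) * h1 - d⁄dX K (W l) * hinv l

end Pool.Agent.H10.EL
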