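import Mathlib
import Pool.Agent.H10.EC.Coe

set_option autoImplicit false

/-!
# From a quartic to a cubic
-/

namespace Pool.Agent.H10.EL

open PowerSeries Pool.Agent.H96.FI Pool.Agent.H10.EC

namespace QU

/-- a polynomial with algebraic coefficients lifts to the algebraic closure of `ℚ` in `K` -/
theorem lift_poly {K : Type} [Field K] [CharZero K] (q : Polynomial K)
    (hqa : ∀ i, IsAlgebraic ℚ (q.coeff i)) :
    ∃ q0 : Polynomial (algebraicClosure ℚ K), q0.map (algebraMap (algebraicClosure ℚ K) K) = q := by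
  have h : q ∈ Polynomial.lifts (algebraMap (algebraicClosure ℚ K) K) := by
    rw [Polynomial.lifts_iff_coeff_lifts]
    intro n
    exact ⟨⟨q.coeff n, (mem_algebraicClosure_iff).2 (hqa n)⟩, rfl⟩
  rw [Polynomial.mem_lifts] at h
  exact h

/-- a root of a polynomial with algebraic coefficients is algebraic -/
theorem alg_root {K : Type} [Field K] [CharZero K] (q : Polynomial K) (hq : q ≠ 0)
    (hqa : ∀ i, IsAlgebraic ℚ (q.coeff i)) (a : K) (ha : q.eval a = 0) : IsAlgebraic ℚ a := by
  obtain ⟨q0, hq0⟩ := lift_poly q hqa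
  have h1 : IsAlgebraic (algebraicClosure ℚ K) a := by
    refine ⟨q0, ?_, ?_⟩
    · rintro rfl
      exact hq (by rw [← hq0, Polynomial.map_zero])
    · rw [Polynomial.aeval_def, ← Polynomial.eval_map, hq0, ha]
  have : Algebra.IsAlgebraic ℚ (algebraicClosure ℚ K) := algebraicClosure.isAlgebraic ℚ K
  exact h1.restrictScalars ℚ

/-- the shift has algebraic coefficients -/
theorem comp_coeff_alg {K : Type} [Field K] [CharZero K] (q : Polynomial K)
    (hqa : ∀ i, IsAlgebraic ℚ (q.coeff i)) (a : K) (ha : IsAlgebraic ℚ a) (i : ℕ) :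
    IsAlgebraic ℚ ((q.comp (Polynomial.X + Polynomial.C a)).coeff i) := by
  obtain ⟨q0, hq0⟩ := lift_poly q hqa
  have h1 : q.comp (Polynomial.X + Polynomial.C a) =
      (q0.comp (Polynomial.X + Polynomial.C
        (⟨a, (mem_algebraicClosure_iff).2 ha⟩ : algebraicClosure ℚ K))).map
        (algebraMap (algebraicClosure ℚ K) K) := by
    rw [Polynomial.map_comp, hq0]
    simp
  rw [h1, Polynomial.coeff_map]
  exact (mem_algebraicClosure_iff).1 (Subtype.property _)

theorem natDegree_shift {K : Type} [Field K] (q : Polynomial K) (a : K) :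
    (q.comp (Polynomial.X + Polynomial.C a)).natDegree = q.natDegree := by
  rw [Polynomial.natDegree_comp, Polynomial.natDegree_X_add_C, mul_one]

theorem sqf_shift {K : Type} [Field K] (q : Polynomial K) (hsq : Squarefree q) (a : K) :
    Squarefree (q.comp (Polynomial.X + Polynomial.C a)) := by
  intro d hd
  obtain ⟨e, he⟩ := hd
  have h1 : q = (d.comp (Polynomial.X - Polynomial.C a)) * (d.comp (Polynomial.X - Polynomial.C a)) *
      (e.comp (Polynomial.X - Polynomial.C a)) := by
    rw [← Polynomial.mul_comp, ← Polynomial.mul_comp, ← he, Polynomial.comp_assoc]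
    simp
  have h2 := hsq _ ⟨_, h1⟩
  have hd0 : d ≠ 0 := by
    rintro rfl
    simp at h2
  rw [Polynomial.isUnit_iff_degree_eq_zero] at h2 ⊢
  have h3 : (d.comp (Polynomial.X - Polynomial.C a)).natDegree = d.natDegree := by
    rw [Polynomial.natDegree_comp, Polynomial.natDegree_X_sub_C, mul_one]
  have h4 : d.natDegree = 0 := by
    rw [← h3]
    exact Polynomial.natDegree_eq_of_degree_eq_some h2
  rw [Polynomial.degree_eq_natDegree hd0, h4]
  rfl

theorem rev_rev {K : Type} [Field K] (r : Polynomial K) (h0 : r.coeff 0 ≠ 0) :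
    r.reverse.natDegree = r.natDegree ∧ r.reverse.reverse = r := by
  have h1 : r.natTrailingDegree = 0 := Polynomial.natTrailingDegree_eq_zero.2 (Or.inr h0)
  have h2 : r.reverse.natDegree = r.natDegree := by
    have := Polynomial.natDegree_eq_reverse_natDegree_add_natTrailingDegree r
    omega
  refine ⟨h2, ?_⟩
  ext n
  rw [Polynomial.coeff_reverse, h2, Polynomial.coeff_reverse, Polynomial.revAt_invol]

theorem sqf_rev {K : Type} [Field K] (r : Polynomial K) (hsq : Squarefree r)
    (h0 : r.coeff 0 ≠ 0) : Squarefree r.reverse := by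
  intro d hd
  obtain ⟨e, he⟩ := hd
  have h1 : r = d.reverse * d.reverse * e.reverse := by
    rw [← Polynomial.reverse_mul_of_domain, ← Polynomial.reverse_mul_of_domain, ← he,
      (rev_rev r h0).2]
  have h2 := hsq _ ⟨_, h1⟩
  have hr : r ≠ 0 := by
    rintro rfl
    simp at h0
  have h3 : d.coeff 0 ≠ 0 := by
    intro h
    have h5 : r.reverse.coeff 0 = 0 := by
      rw [he, Polynomial.mul_coeff_zero, Polynomial.mul_coeff_zero, h]
      ring
    rw [Polynomial.coeff_zero_reverse] at h5
    exact hr (Polynomial.leadingCoeff_eq_zero.1 h5)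
  have hd0 : d ≠ 0 := by
    rintro rfl
    simp at h3
  have h4 : d.reverse.natDegree = 0 := by
    rw [Polynomial.isUnit_iff_degree_eq_zero] at h2
    exact Polynomial.natDegree_eq_of_degree_eq_some h2
  have h6 : d.natDegree = 0 := by
    rw [← (rev_rev d h3).1, h4]
  rw [Polynomial.isUnit_iff_degree_eq_zero, Polynomial.degree_eq_natDegree hd0, h6]
  rfl

/-- a root different from a given element -/
theorem other_root {K : Type} [Field K] [IsAlgClosed K] (q : Polynomial K)
    (hdeg : 2 ≤ q.natDegree) (hsq : Squarefree q) (c : K) : ∃ a, q.eval a = 0 ∧ a ≠ c := by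
  have hq : q ≠ 0 := by
    rintro rfl
    simp at hdeg
  by_cases hc : q.eval c = 0
  · have h1 : (Polynomial.X - Polynomial.C c) ∣ q := Polynomial.dvd_iff_isRoot.2 hc
    obtain ⟨g, hg⟩ := h1
    have hg0 : g ≠ 0 := by
      rintro rfl
      exact hq (by rw [hg, mul_zero])
    have h2 : q.natDegree = 1 + g.natDegree := by
      rw [hg, Polynomial.natDegree_mul (Polynomial.X_sub_C_ne_zero c) hg0,
        Polynomial.natDegree_X_sub_C]
    have h3 : g.degree ≠ 0 := by
      rw [Polynomial.degree_eq_natDegree hg0]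
      intro h
      have : g.natDegree = 0 := by exact_mod_cast h
      omega
    obtain ⟨a, ha⟩ := IsAlgClosed.exists_root g h3
    have ha' : g.eval a = 0 := ha
    refine ⟨a, ?_, ?_⟩
    · rw [hg, Polynomial.eval_mul, ha', mul_zero]
    · rintro rfl
      have h4 : (Polynomial.X - Polynomial.C a) ∣ g := Polynomial.dvd_iff_isRoot.2 ha
      have h5 : (Polynomial.X - Polynomial.C a) * (Polynomial.X - Polynomial.C a) ∣ q := by
        rw [hg]
        exact mul_dvd_mul_left _ h4
      have h6 := hsq _ h5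
      rw [Polynomial.isUnit_iff_degree_eq_zero, Polynomial.degree_X_sub_C] at h6
      exact one_ne_zero h6
  · have h3 : q.degree ≠ 0 := by
      rw [Polynomial.degree_eq_natDegree hq]
      intro h
      have : q.natDegree = 0 := by exact_mod_cast h
      omega
    obtain ⟨a, ha⟩ := IsAlgClosed.exists_root q h3
    refine ⟨a, ha, ?_⟩
    rintro rfl
    exact hc ha

end QU

open QU in
/-- P3: from a quartic to a cubic -/
theorem quartic_ps {K : Type} [Field K] [CharZero K] [IsAlgClosed K] (q : Polynomial K)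
    (hdeg : q.natDegree = 4) (hsq : Squarefree q) (hqa : ∀ i, IsAlgebraic ℚ (q.coeff i))
    (u s : K⟦X⟧) (hsu : s ^ 2 = Polynomial.aeval u q) (hu0 : d⁄dX K u ≠ 0) :
    ∃ (q1 : Polynomial K) (u1 s1 : K⟦X⟧), q1.natDegree = 3 ∧ Squarefree q1 ∧
      (∀ i, IsAlgebraic ℚ (q1.coeff i)) ∧ s1 ^ 2 = Polynomial.aeval u1 q1 ∧
      d⁄dX K u1 * s = -(d⁄dX K u * s1) ∧ d⁄dX K u1 ≠ 0 ∧
      (IsAlgebraic (AK K) u → IsAlgebraic (AK K) s →
        IsAlgebraic (AK K) u1 ∧ IsAlgebraic (AK K) s1) := by
  have hq0 : q ≠ 0 := by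
    rintro rfl
    simp at hdeg
  obtain ⟨a, ha, hac⟩ := other_root q (by omega) hsq (constantCoeff u)
  have haa : IsAlgebraic ℚ a := alg_root q hq0 hqa a ha
  set p : Polynomial K := q.comp (Polynomial.X + Polynomial.C a) with hp
  have hpdeg : p.natDegree = 4 := by rw [hp, natDegree_shift, hdeg]
  have hpsq : Squarefree p := sqf_shift q hsq a
  have hpa : ∀ i, IsAlgebraic ℚ (p.coeff i) := comp_coeff_alg q hqa a haa
  have hp0 : p.coeff 0 = 0 := by
    rw [Polynomial.coeff_zero_eq_eval_zero, hp, Polynomial.eval_comp]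
    simpa using ha
  set r : Polynomial K := p.divX with hr
  have hpr : p = Polynomial.X * r := by
    have := Polynomial.X_mul_divX_add p
    rw [hp0, Polynomial.C_0, add_zero] at this
    exact this.symm
  have hrdeg : r.natDegree = 3 := by
    rw [hr, Polynomial.natDegree_divX_eq_natDegree_tsub_one, hpdeg]
  have hrsq : Squarefree r := hpsq.squarefree_of_dvd ⟨Polynomial.X, by rw [hpr]; ring⟩
  have hr0 : r.coeff 0 ≠ 0 := by
    intro h
    have h1 : Polynomial.X ∣ r := Polynomial.X_dvd_iff.2 h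
    have h2 : Polynomial.X * Polynomial.X ∣ p := by
      rw [hpr]
      exact mul_dvd_mul_left _ h1
    have h3 := hpsq _ h2
    rw [Polynomial.isUnit_iff_degree_eq_zero, Polynomial.degree_X] at h3
    exact one_ne_zero h3
  set x : K⟦X⟧ := u - C a with hx
  have hx0 : constantCoeff x ≠ 0 := by
    rw [hx, map_sub, constantCoeff_C]
    exact sub_ne_zero.2 (Ne.symm hac)
  have hxi : x * x⁻¹ = 1 := PowerSeries.mul_inv_cancel x hx0
  have hqx : Polynomial.aeval u q = x * Polynomial.aeval x r := by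
    have h1 : Polynomial.aeval x p = Polynomial.aeval u q := by
      have h2 : Polynomial.aeval x (Polynomial.X + Polynomial.C a : Polynomial K) = u := by
        rw [map_add, Polynomial.aeval_X, Polynomial.aeval_C, hx]
        exact sub_add_cancel u (C a)
      rw [hp, Polynomial.aeval_comp, h2]
    rw [← h1, hpr, map_mul, Polynomial.aeval_X]
  have hrev : Polynomial.aeval x⁻¹ r.reverse * x ^ 3 = Polynomial.aeval x r := by
    let _ : Invertible x := ⟨x⁻¹, by rw [mul_comm]; exact hxi, hxi⟩
    have h1 := Polynomial.eval₂_reverse_mul_pow (algebraMap K K⟦X⟧) x r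
    rw [hrdeg] at h1
    exact h1
  refine ⟨r.reverse, x⁻¹, s * x⁻¹ ^ 2, ?_, sqf_rev r hrsq hr0, ?_, ?_, ?_, ?_, ?_⟩
  · rw [(rev_rev r hr0).1, hrdeg]
  · intro i
    rw [Polynomial.coeff_reverse, hr, Polynomial.coeff_divX]
    exact hpa _
  · have h1 : (s * x⁻¹ ^ 2) ^ 2 = s ^ 2 * x⁻¹ ^ 4 := by ring
    rw [h1, hsu, hqx, ← hrev]
    have h2 : x * (Polynomial.aeval x⁻¹ r.reverse * x ^ 3) * x⁻¹ ^ 4 =
        Polynomial.aeval x⁻¹ r.reverse * (x * x⁻¹) ^ 4 := by ring
    rw [h2, hxi, one_pow, mul_one]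
  · have hd : d⁄dX K x = d⁄dX K u := by
      rw [hx, map_sub]
      simp
    have h1 : d⁄dX K (x * x⁻¹) = 0 := by rw [hxi]; simp
    rw [Derivation.leibniz, hd] at h1
    simp only [smul_eq_mul] at h1
    have h2 : d⁄dX K x⁻¹ = -(x⁻¹ ^ 2 * d⁄dX K u) := by
      have h3 : d⁄dX K x⁻¹ = (x * x⁻¹) * d⁄dX K x⁻¹ := by rw [hxi, one_mul]
      rw [h3]
      linear_combination x⁻¹ * h1
    rw [h2]
    ring
  · have hd : d⁄dX K x = d⁄dX K u := by
      rw [hx, map_sub]
      simp
    intro h
    have h1 : d⁄dX K (x * x⁻¹) = 0 := by rw [hxi]; simp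
    rw [Derivation.leibniz, hd, h] at h1
    simp only [smul_eq_mul, mul_zero, zero_add] at h1
    have h3 : x⁻¹ ≠ 0 := by
      intro h4
      rw [h4, mul_zero] at hxi
      exact zero_ne_one hxi
    exact (mul_ne_zero h3 hu0) h1
  · intro hu hs
    have h1 : IsAlgebraic (AK K) x := by
      rw [hx]
      exact hu.sub (algC a)
    have h2 : IsAlgebraic (AK K) x⁻¹ := algInv x hx0 h1
    exact ⟨h2, hs.mul (h2.pow 2)⟩

end Pool.Agent.H10.EL
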