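import Mathlib
import Pool.Agent.H10.EC.Coe

/-!
P2: translation by a constant point on a cubic curve `w ^ 2 = q (u)` over a ring of power series,
followed by `u ↦ 1 / (u - a)` with a root `a` of `q`.
-/

set_option autoImplicit false

namespace Pool.Agent.H10.EL

open PowerSeries Pool.Agent.H96.FI Pool.Agent.H10.EC

namespace Tr

/-- the addition formula, square of the ordinate -/
theorem id1 {R : Type} [CommRing R] (k P Q x y s t : R)
    (h1 : s ^ 2 = k * (x ^ 3 + P * x ^ 2 + Q * x)) (h2 : t ^ 2 = k * (y ^ 3 + P * y ^ 2 + Q * y))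
    (A M : R) (hA : A = (s + t) ^ 2 - k * (x + y + P) * (x - y) ^ 2)
    (hM : M = k * s * (x - y) ^ 3 + (s + t) * (A - x * k * (x - y) ^ 2)) :
    M ^ 2 = A ^ 3 + P * k * (x - y) ^ 2 * A ^ 2 + Q * k ^ 2 * (x - y) ^ 4 * A := by
  subst hM
  subst hA
  linear_combination (s^2*x^3*k - 3*s^2*x^2*y*k + 3*s^2*x*y^2*k - s^2*y^3*k + 2*s*t*x^3*k
    - 6*s*t*x^2*y*k + 6*s*t*x*y^2*k - 2*s*t*y^3*k - x^6*k^2 + 3*x^5*y*k^2 - x^5*P*k^2
    + 5*x^4*y*P*k^2 - 9*x^3*y^3*k^2 - 9*x^3*y^2*P*k^2 + x^3*y*Q*k^2 + 12*x^2*y^4*k^2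
    + 7*x^2*y^3*P*k^2 - 3*x^2*y^2*Q*k^2 - 6*x*y^5*k^2 - 2*x*y^4*P*k^2 + 3*x*y^3*Q*k^2 + y^6*k^2
    - y^4*Q*k^2) * h1
    + (-2*s*t*x^3*k + 6*s*t*x^2*y*k - 6*s*t*x*y^2*k + 2*s*t*y^3*k - t^2*x^3*k + 3*t^2*x^2*y*k
    - 3*t^2*x*y^2*k + t^2*y^3*k + x^6*k^2 - 6*x^5*y*k^2 + 12*x^4*y^2*k^2 - 2*x^4*y*P*k^2
    - x^4*Q*k^2 - 9*x^3*y^3*k^2 + 7*x^3*y^2*P*k^2 + 3*x^3*y*Q*k^2 - 9*x^2*y^3*P*k^2
    - 3*x^2*y^2*Q*k^2 + 3*x*y^5*k^2 + 5*x*y^4*P*k^2 + x*y^3*Q*k^2 - y^6*k^2 - y^5*P*k^2) * h2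

/-- the addition formula, invariance of the differential -/
theorem id2 {R : Type} [CommRing R] (k P Q x y s t : R)
    (h1 : s ^ 2 = k * (x ^ 3 + P * x ^ 2 + Q * x)) (h2 : t ^ 2 = k * (y ^ 3 + P * y ^ 2 + Q * y))
    (A M : R) (hA : A = (s + t) ^ 2 - k * (x + y + P) * (x - y) ^ 2)
    (hM : M = k * s * (x - y) ^ 3 + (s + t) * (A - x * k * (x - y) ^ 2)) :
    2 * A * s - (x - y) * ((s + t) * (k * (3 * x ^ 2 + 2 * P * x + Q)) -
      k * s * ((x - y) ^ 2 + 2 * (x - y) * (x + y + P))) - M = 0 := by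
  subst hM
  subst hA
  linear_combination (s + t) * h1 - (s + t) * h2

section pol

open Polynomial

theorem split_one {K : Type} [Field K] [IsAlgClosed K] (n : ℕ) (q : Polynomial K)
    (hdeg : q.natDegree = n + 1) :
    ∃ (a : K) (r : Polynomial K), q = (Polynomial.X - Polynomial.C a) * r ∧ r.natDegree = n := by
  have hq : q ≠ 0 := by
    rintro rfl
    simp at hdeg
  obtain ⟨a, ha⟩ := IsAlgClosed.exists_root q (by
    rw [Polynomial.degree_eq_natDegree hq, hdeg]
    exact_mod_cast Nat.succ_ne_zero n)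
  obtain ⟨r, hr⟩ := Polynomial.dvd_iff_isRoot.2 ha
  refine ⟨a, r, hr, ?_⟩
  have hr0 : r ≠ 0 := by
    rintro rfl
    rw [mul_zero] at hr
    exact hq hr
  have h := Polynomial.natDegree_mul (Polynomial.X_sub_C_ne_zero a) hr0
  rw [← hr, hdeg, Polynomial.natDegree_X_sub_C] at h
  omega

theorem cubic_roots {K : Type} [Field K] [IsAlgClosed K] (q : Polynomial K)
    (hdeg : q.natDegree = 3) (hsq : Squarefree q) :
    ∃ e a b c : K, e ≠ 0 ∧ a ≠ b ∧ a ≠ c ∧ b ≠ c ∧
      q = Polynomial.C e * (Polynomial.X - Polynomial.C a) * (Polynomial.X - Polynomial.C b) *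
        (Polynomial.X - Polynomial.C c) := by
  obtain ⟨a, r, hr, hrd⟩ := split_one 2 q hdeg
  obtain ⟨b, r2, hr2, hrd2⟩ := split_one 1 r hrd
  obtain ⟨c, r3, hr3, hrd3⟩ := split_one 0 r2 hrd2
  obtain ⟨e, he⟩ := Polynomial.natDegree_eq_zero.1 hrd3
  have hq : q = Polynomial.C e * (Polynomial.X - Polynomial.C a) *
      (Polynomial.X - Polynomial.C b) * (Polynomial.X - Polynomial.C c) := by
    rw [hr, hr2, hr3, ← he]
    ring
  have key : ∀ (x : K) (w : Polynomial K),
      q ≠ (Polynomial.X - Polynomial.C x) * (Polynomial.X - Polynomial.C x) * w := by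
    intro x w h
    exact Polynomial.not_isUnit_X_sub_C x (hsq _ ⟨w, h⟩)
  refine ⟨e, a, b, c, ?_, ?_, ?_, ?_, hq⟩
  · rintro rfl
    rw [hq] at hdeg
    simp at hdeg
  · rintro rfl
    refine key a (Polynomial.C e * (Polynomial.X - Polynomial.C c)) ?_
    rw [hq]
    ring
  · rintro rfl
    refine key a (Polynomial.C e * (Polynomial.X - Polynomial.C b)) ?_
    rw [hq]
    ring
  · rintro rfl
    refine key b (Polynomial.C e * (Polynomial.X - Polynomial.C a)) ?_
    rw [hq]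
    ring

theorem sqf3 {K : Type} [Field K] (e x y z : K) (he : e ≠ 0) (hxy : x ≠ y) (hxz : x ≠ z)
    (hyz : y ≠ z) :
    Squarefree (Polynomial.C e * (Polynomial.X - Polynomial.C x) *
      (Polynomial.X - Polynomial.C y) * (Polynomial.X - Polynomial.C z)) := by
  have hs : ((Polynomial.X - Polynomial.C x) * (Polynomial.X - Polynomial.C y) *
      (Polynomial.X - Polynomial.C z)).Separable := by
    refine Polynomial.Separable.mul (Polynomial.Separable.mul Polynomial.separable_X_sub_C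
      Polynomial.separable_X_sub_C ?_) Polynomial.separable_X_sub_C ?_
    · exact Polynomial.isCoprime_X_sub_C_of_isUnit_sub (sub_ne_zero.2 hxy).isUnit
    · exact IsCoprime.mul_left
        (Polynomial.isCoprime_X_sub_C_of_isUnit_sub (sub_ne_zero.2 hxz).isUnit)
        (Polynomial.isCoprime_X_sub_C_of_isUnit_sub (sub_ne_zero.2 hyz).isUnit)
  have hu : IsUnit (Polynomial.C e) := Polynomial.isUnit_C.2 he.isUnit
  intro w hw
  refine hs.squarefree w ?_
  rw [mul_assoc, mul_assoc] at hw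
  have h2 := hu.dvd_mul_left.1 hw
  rwa [← mul_assoc] at h2

theorem deg3 {K : Type} [Field K] (e x y z : K) (he : e ≠ 0) :
    (Polynomial.C e * (Polynomial.X - Polynomial.C x) *
      (Polynomial.X - Polynomial.C y) * (Polynomial.X - Polynomial.C z)).natDegree = 3 := by
  rw [mul_assoc, mul_assoc, Polynomial.natDegree_C_mul he,
    Polynomial.natDegree_mul (Polynomial.X_sub_C_ne_zero x)
      (mul_ne_zero (Polynomial.X_sub_C_ne_zero y) (Polynomial.X_sub_C_ne_zero z)),
    Polynomial.natDegree_mul (Polynomial.X_sub_C_ne_zero y) (Polynomial.X_sub_C_ne_zero z),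
    Polynomial.natDegree_X_sub_C, Polynomial.natDegree_X_sub_C, Polynomial.natDegree_X_sub_C]

theorem alg3 {K : Type} [Field K] [CharZero K] (e x y z : K) (he : IsAlgebraic ℚ e)
    (hx : IsAlgebraic ℚ x) (hy : IsAlgebraic ℚ y) (hz : IsAlgebraic ℚ z) (i : ℕ) :
    IsAlgebraic ℚ ((Polynomial.C e * (Polynomial.X - Polynomial.C x) *
      (Polynomial.X - Polynomial.C y) * (Polynomial.X - Polynomial.C z)).coeff i) := by
  have h : Polynomial.C e * (Polynomial.X - Polynomial.C x) *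
      (Polynomial.X - Polynomial.C y) * (Polynomial.X - Polynomial.C z) =
      Polynomial.map (algebraMap (algebraicClosure ℚ K) K)
        (Polynomial.C ⟨e, mem_algebraicClosure_iff.2 he⟩ *
          (Polynomial.X - Polynomial.C ⟨x, mem_algebraicClosure_iff.2 hx⟩) *
          (Polynomial.X - Polynomial.C ⟨y, mem_algebraicClosure_iff.2 hy⟩) *
          (Polynomial.X - Polynomial.C ⟨z, mem_algebraicClosure_iff.2 hz⟩)) := by
    simp only [Polynomial.map_mul, Polynomial.map_sub, Polynomial.map_X, Polynomial.map_C]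
    rfl
  rw [h, Polynomial.coeff_map]
  exact mem_algebraicClosure_iff.1 (SetLike.coe_mem _)

theorem root_alg {K : Type} [Field K] [CharZero K] (q : Polynomial K) (hq : q ≠ 0)
    (hqa : ∀ i, IsAlgebraic ℚ (q.coeff i)) (a : K) (ha : Polynomial.eval a q = 0) :
    IsAlgebraic ℚ a := by
  have h1 : q ∈ Polynomial.lifts (algebraMap (algebraicClosure ℚ K) K) := by
    rw [Polynomial.lifts_iff_coeff_lifts]
    intro n
    exact ⟨⟨q.coeff n, mem_algebraicClosure_iff.2 (hqa n)⟩, rfl⟩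
  obtain ⟨q', hq'⟩ := (Polynomial.mem_lifts q).1 h1
  have h2 : IsAlgebraic (algebraicClosure ℚ K) a := by
    refine ⟨q', ?_, ?_⟩
    · rintro rfl
      rw [Polynomial.map_zero] at hq'
      exact hq hq'.symm
    · rw [Polynomial.aeval_def, ← Polynomial.eval_map, hq', ha]
  have h3 : Algebra.IsAlgebraic ℚ (algebraicClosure ℚ K) := ⟨fun z => by
    have h4 : IsAlgebraic ℚ (z : K) := mem_algebraicClosure_iff.1 z.2
    have h5 : Function.Injective (algebraMap (algebraicClosure ℚ K) K) :=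
      (algebraMap (algebraicClosure ℚ K) K).injective
    exact (isAlgebraic_algebraMap_iff (R := ℚ) h5).1 h4⟩
  exact h2.restrictScalars ℚ

end pol

end Tr

open Tr in
/-- P2: translation by a constant point of the cubic, to a point with algebraic initial value -/
theorem translate {K : Type} [Field K] [CharZero K] [IsAlgClosed K] (q : Polynomial K)
    (hdeg : q.natDegree = 3) (hsq : Squarefree q) (hqa : ∀ i, IsAlgebraic ℚ (q.coeff i))
    (u s : K⟦X⟧) (hsu : s ^ 2 = Polynomial.aeval u q) (hs0 : constantCoeff s ≠ 0)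
    (hu0 : d⁄dX K u ≠ 0) :
    ∃ (q1 : Polynomial K) (u1 s1 : K⟦X⟧), q1.natDegree = 3 ∧ Squarefree q1 ∧
      (∀ i, IsAlgebraic ℚ (q1.coeff i)) ∧ s1 ^ 2 = Polynomial.aeval u1 q1 ∧
      constantCoeff u1 = 0 ∧ d⁄dX K u1 * s = -(d⁄dX K u * s1) ∧ d⁄dX K u1 ≠ 0 ∧
      (IsAlgebraic (AK K) u → IsAlgebraic (AK K) s →
        IsAlgebraic (AK K) u1 ∧ IsAlgebraic (AK K) s1) := by
  obtain ⟨e, a, b, c, he, hab, hac, hbc, hq⟩ := cubic_roots q hdeg hsq
  have hq0 : q ≠ 0 := hsq.ne_zero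
  have haa : IsAlgebraic ℚ a := root_alg q hq0 hqa a (by rw [hq]; simp)
  have hba : IsAlgebraic ℚ b := root_alg q hq0 hqa b (by rw [hq]; simp)
  have hca : IsAlgebraic ℚ c := root_alg q hq0 hqa c (by rw [hq]; simp)
  have hea : IsAlgebraic ℚ e := by
    have h1 : q.leadingCoeff = e := by
      rw [hq, Polynomial.leadingCoeff_mul, Polynomial.leadingCoeff_mul,
        Polynomial.leadingCoeff_mul, Polynomial.leadingCoeff_C, Polynomial.leadingCoeff_X_sub_C,
        Polynomial.leadingCoeff_X_sub_C, Polynomial.leadingCoeff_X_sub_C, mul_one, mul_one,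
        mul_one]
    rw [← h1]
    exact hqa _
  -- the equation of the curve
  have hsu' : s ^ 2 = C e * (u - C a) * (u - C b) * (u - C c) := by
    rw [hsu, hq]
    simp only [map_mul, map_sub, Polynomial.aeval_C, Polynomial.aeval_X,
      PowerSeries.algebraMap_apply, Algebra.algebraMap_self, RingHom.id_apply]
  set u0 : K := constantCoeff u with hu0d
  set s0 : K := constantCoeff s with hs0d
  have hsc : s0 ^ 2 = e * (u0 - a) * (u0 - b) * (u0 - c) := by
    have h := congrArg (constantCoeff (R := K)) hsu'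
    simp only [map_pow, map_mul, map_sub, constantCoeff_C] at h
    exact h
  have hscC : (C s0 : K⟦X⟧) ^ 2 = C e * (C u0 - C a) * (C u0 - C b) * (C u0 - C c) := by
    rw [← map_pow, hsc]
    simp only [map_mul, map_sub]
  obtain ⟨k, hk⟩ : ∃ k : K⟦X⟧, k = C e := ⟨_, rfl⟩
  obtain ⟨P, hP⟩ : ∃ P : K⟦X⟧, P = C (a - b + (a - c)) := ⟨_, rfl⟩
  obtain ⟨Q, hQ⟩ : ∃ Q : K⟦X⟧, Q = C ((a - b) * (a - c)) := ⟨_, rfl⟩
  obtain ⟨x, hx⟩ : ∃ x : K⟦X⟧, x = u - C a := ⟨_, rfl⟩
  obtain ⟨y, hy⟩ : ∃ y : K⟦X⟧, y = C u0 - C a := ⟨_, rfl⟩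
  obtain ⟨t, ht⟩ : ∃ t : K⟦X⟧, t = C s0 := ⟨_, rfl⟩
  have h1 : s ^ 2 = k * (x ^ 3 + P * x ^ 2 + Q * x) := by
    rw [hsu', hk, hx, hP, hQ]
    simp only [map_add, map_sub, map_mul]
    ring
  have h2 : t ^ 2 = k * (y ^ 3 + P * y ^ 2 + Q * y) := by
    rw [ht, hscC, hk, hy, hP, hQ]
    simp only [map_add, map_sub, map_mul]
    ring
  obtain ⟨A, hA⟩ : ∃ A : K⟦X⟧, A = (s + t) ^ 2 - k * (x + y + P) * (x - y) ^ 2 := ⟨_, rfl⟩
  obtain ⟨M, hM⟩ : ∃ M : K⟦X⟧, M = k * s * (x - y) ^ 3 + (s + t) * (A - x * k * (x - y) ^ 2) :=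
    ⟨_, rfl⟩
  have hxy0 : constantCoeff (x - y) = 0 := by
    rw [hx, hy]
    simp only [map_sub, constantCoeff_C]
    rw [← hu0d]
    ring
  have hA0 : constantCoeff A ≠ 0 := by
    rw [hA]
    simp only [map_sub, map_mul, map_pow, map_add] at hxy0 ⊢
    rw [hxy0, ht, constantCoeff_C, ← hs0d]
    have h3 : (s0 + s0) ^ 2 - constantCoeff k * (constantCoeff x + constantCoeff y +
        constantCoeff P) * 0 ^ 2 = 4 * s0 ^ 2 := by ring
    rw [h3]
    exact mul_ne_zero (by norm_num) (pow_ne_zero 2 hs0)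
  obtain ⟨I, hI⟩ : ∃ I : K⟦X⟧, I = A⁻¹ := ⟨_, rfl⟩
  have hAI : A * I = 1 := by
    rw [hI]
    exact PowerSeries.mul_inv_cancel _ hA0
  have hid1 := id1 k P Q x y s t h1 h2 A M hA hM
  have hid2 := id2 k P Q x y s t h1 h2 A M hA hM
  -- derivatives
  have dk : d⁄dX K k = 0 := by rw [hk]; exact derivative_C
  have dP : d⁄dX K P = 0 := by rw [hP]; exact derivative_C
  have dQ : d⁄dX K Q = 0 := by rw [hQ]; exact derivative_C
  have dt : d⁄dX K t = 0 := by rw [ht]; exact derivative_C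
  have dx : d⁄dX K x = d⁄dX K u := by
    rw [hx, map_sub, derivative_C, sub_zero]
  have dy : d⁄dX K y = 0 := by
    rw [hy, map_sub, derivative_C, derivative_C, sub_zero]
  have hsd : 2 * s * d⁄dX K s = d⁄dX K u * (k * (3 * x ^ 2 + 2 * P * x + Q)) := by
    have h := congrArg (d⁄dX K) h1
    simp only [Derivation.leibniz, Derivation.leibniz_pow, map_add, dk, dP, dQ, dx, smul_eq_mul,
      nsmul_eq_mul, mul_zero, add_zero] at h
    push_cast at h
    linear_combination h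
  have hAd : d⁄dX K A = 2 * (s + t) * d⁄dX K s -
      k * (d⁄dX K u * (x - y) ^ 2 + (x + y + P) * (2 * (x - y) * d⁄dX K u)) := by
    rw [hA]
    simp only [Derivation.leibniz, Derivation.leibniz_pow, map_add, map_sub, dk, dP, dt, dx, dy,
      smul_eq_mul, nsmul_eq_mul, mul_zero, add_zero, sub_zero]
    push_cast
    ring
  have hId : d⁄dX K I = -(I ^ 2 * d⁄dX K A) := by
    have h := congrArg (d⁄dX K) hAI
    rw [Derivation.leibniz, Derivation.map_one_eq_zero, smul_eq_mul, smul_eq_mul] at h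
    linear_combination I * h - d⁄dX K I * hAI
  -- the new point
  obtain ⟨u1, hu1⟩ : ∃ u1 : K⟦X⟧, u1 = k * (x - y) ^ 2 * I := ⟨_, rfl⟩
  obtain ⟨s1, hs1⟩ : ∃ s1 : K⟦X⟧, s1 = -(k * (x - y) * I ^ 2 * M) := ⟨_, rfl⟩
  have hu1c : constantCoeff u1 = 0 := by
    rw [hu1, map_mul, map_mul, map_pow, hxy0]
    ring
  have hcurve : s1 ^ 2 = k * u1 + k * P * u1 ^ 2 + k * Q * u1 ^ 3 := by
    rw [hs1, hu1]
    linear_combination (k ^ 2 * (x - y) ^ 2 * I ^ 4) * hid1 +
      (k ^ 2 * (x - y) ^ 2 * I * (A ^ 2 * I ^ 2 + A * I + 1) +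
        k ^ 3 * P * (x - y) ^ 4 * I ^ 2 * (A * I + 1) +
        k ^ 4 * Q * (x - y) ^ 6 * I ^ 3) * hAI
  have hform : d⁄dX K u1 * s = -(d⁄dX K u * s1) := by
    have hu1d : d⁄dX K u1 = k * (2 * (x - y) * d⁄dX K u * I + (x - y) ^ 2 * d⁄dX K I) := by
      rw [hu1]
      simp only [Derivation.leibniz, Derivation.leibniz_pow, map_sub, dk, dx, dy,
        smul_eq_mul, nsmul_eq_mul, mul_zero, add_zero, sub_zero]
      push_cast
      ring
    rw [hu1d, hs1, hId, hAd]
    linear_combination (k * (x - y) * I ^ 2 * d⁄dX K u) * hid2 -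
      (2 * k * (x - y) * d⁄dX K u * I * s) * hAI -
      (k * (x - y) ^ 2 * I ^ 2 * (s + t)) * hsd
  have hu1n : d⁄dX K u1 ≠ 0 := by
    intro h0
    have h3 : u1 = C (constantCoeff u1) := by
      ext n
      rcases n with _ | n
      · rw [coeff_zero_eq_constantCoeff_apply, coeff_zero_eq_constantCoeff_apply, constantCoeff_C]
      · have h4 := congrArg (coeff n) h0
        rw [coeff_derivative, map_zero] at h4
        rw [coeff_C, if_neg (Nat.succ_ne_zero n)]
        exact (mul_eq_zero.1 h4).resolve_right (by exact_mod_cast Nat.succ_ne_zero n)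
    rw [hu1c, map_zero] at h3
    have h5 : k * (x - y) ^ 2 = 0 := by
      have h6 : k * (x - y) ^ 2 = A * u1 := by
        rw [hu1]
        linear_combination (-(k * (x - y) ^ 2)) * hAI
      rw [h6, h3, mul_zero]
    have hk0 : k ≠ 0 := by
      rw [hk]
      intro h7
      apply he
      have h8 := congrArg (constantCoeff (R := K)) h7
      rwa [constantCoeff_C, map_zero] at h8
    have h9 : x - y = 0 := pow_eq_zero_iff (two_ne_zero) |>.1 ((mul_eq_zero.1 h5).resolve_left hk0)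
    apply hu0
    rw [← dx]
    have h10 := congrArg (d⁄dX K) h9
    rwa [map_sub, dy, sub_zero, map_zero] at h10
  -- the new cubic
  have hba0 : b - a ≠ 0 := sub_ne_zero.2 (Ne.symm hab)
  have hca0 : c - a ≠ 0 := sub_ne_zero.2 (Ne.symm hac)
  have hab0 : a - b ≠ 0 := sub_ne_zero.2 hab
  have hac0 : a - c ≠ 0 := sub_ne_zero.2 hac
  have hE : e * (a - b) * (a - c) ≠ 0 := mul_ne_zero (mul_ne_zero he hab0) hac0
  refine ⟨Polynomial.C (e * (a - b) * (a - c)) * (Polynomial.X - Polynomial.C 0) *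
    (Polynomial.X - Polynomial.C (b - a)⁻¹) * (Polynomial.X - Polynomial.C (c - a)⁻¹), u1, s1,
    deg3 _ _ _ _ hE, sqf3 _ _ _ _ hE ?_ ?_ ?_, ?_, ?_, hu1c, hform, hu1n, ?_⟩
  · exact (inv_ne_zero hba0).symm
  · exact (inv_ne_zero hca0).symm
  · intro h
    apply hbc
    have h3 := inv_injective h
    linear_combination h3
  · intro i
    refine alg3 _ _ _ _ ?_ ?_ ?_ ?_ i
    · exact (hea.mul (haa.sub hba)).mul (haa.sub hca)
    · exact isAlgebraic_zero
    · exact (hba.sub haa).inv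
    · exact (hca.sub haa).inv
  · have e1 : (C (a - b) : K⟦X⟧) * C (b - a)⁻¹ = -1 := by
      rw [← map_mul]
      have : (a - b) * (b - a)⁻¹ = -1 := by
        field_simp
        ring
      rw [this, map_neg, map_one]
    have e2 : (C (a - c) : K⟦X⟧) * C (c - a)⁻¹ = -1 := by
      rw [← map_mul]
      have : (a - c) * (c - a)⁻¹ = -1 := by
        field_simp
        ring
      rw [this, map_neg, map_one]
    have e3 : Polynomial.aeval u1 (Polynomial.C (e * (a - b) * (a - c)) *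
        (Polynomial.X - Polynomial.C 0) * (Polynomial.X - Polynomial.C (b - a)⁻¹) *
        (Polynomial.X - Polynomial.C (c - a)⁻¹)) =
        C e * u1 * (C (a - b) * u1 - C (a - b) * C (b - a)⁻¹) *
          (C (a - c) * u1 - C (a - c) * C (c - a)⁻¹) := by
      simp only [map_mul, map_sub, Polynomial.aeval_C, Polynomial.aeval_X, map_zero, sub_zero,
        PowerSeries.algebraMap_apply, Algebra.algebraMap_self, RingHom.id_apply]
      ring
    rw [e3, e1, e2, hcurve, hk, hP, hQ]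
    simp only [map_add, map_mul]
    ring
  · intro hua hsa
    have hxa : IsAlgebraic (AK K) x := by
      rw [hx]
      exact hua.sub (algC a)
    have hya : IsAlgebraic (AK K) y := by
      rw [hy]
      exact (algC u0).sub (algC a)
    have hka : IsAlgebraic (AK K) k := by
      rw [hk]
      exact algC e
    have hta : IsAlgebraic (AK K) t := by
      rw [ht]
      exact algC s0
    have hPa : IsAlgebraic (AK K) P := by
      rw [hP]
      exact algC _
    have hAa : IsAlgebraic (AK K) A := by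
      rw [hA]
      exact ((hsa.add hta).pow 2).sub
        ((hka.mul ((hxa.add hya).add hPa)).mul ((hxa.sub hya).pow 2))
    have hIa : IsAlgebraic (AK K) I := by
      rw [hI]
      exact algInv A hA0 hAa
    have hMa : IsAlgebraic (AK K) M := by
      rw [hM]
      exact ((hka.mul hsa).mul ((hxa.sub hya).pow 3)).add
        ((hsa.add hta).mul (hAa.sub ((hxa.mul hka).mul ((hxa.sub hya).pow 2))))
    constructor
    · rw [hu1]
      exact (hka.mul ((hxa.sub hya).pow 2)).mul hIa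
    · rw [hs1]
      exact (((hka.mul (hxa.sub hya)).mul (hIa.pow 2)).mul hMa).neg

end Pool.Agent.H10.EL
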