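import Mathlib
import Pool.Agent.H10.EL.LCG
import Pool.Agent.H10.EL.Trans
import Pool.Agent.H10.EL.Quart

/-!
Relations between exact, logarithmic and one elliptic form, for series algebraic over the constants
and the rational series with property 3, with arbitrary constants: reduction to a cubic and to an
algebraic initial value.
-/

set_option autoImplicit false

namespace Pool.Agent.H10.EL

open PowerSeries Pool.Agent.H96.FI Pool.Agent.H10.EX Pool.Agent.H10.EC

variable {K : Type} [Field K] [CharZero K]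

theorem const_of_der (u : K⟦X⟧) (h : d⁄dX K u = 0) : u = C (constantCoeff u) := by
  apply PowerSeries.derivative.ext
  · rw [h, derivative_C]
  · simp

/-- the cubic case -/
theorem LCF3 [IsAlgClosed K] {r : ℕ} (g : Fin r → K)
    (hg : ∀ e : Fin r → ℤ, ∑ l, (e l : K) * g l = 0 → e = 0) (c : K)
    (q : Polynomial K) (hdeg : q.natDegree = 3) (hsq : Squarefree q)
    (hqa : ∀ i, IsAlgebraic ℚ (q.coeff i)) (u t e : K⟦X⟧) (htu : t ^ 2 = Polynomial.aeval u q)
    (ht0 : t ≠ 0) (he : e * t = d⁄dX K u) (hdu : d⁄dX K u ≠ 0)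
    (v : K⟦X⟧) (W : Fin r → K⟦X⟧) (hv : IsAlgebraic (AK K) v) (hu : IsAlgebraic (AK K) u)
    (ht : IsAlgebraic (AK K) t) (hW : ∀ l, IsAlgebraic (AK K) (W l))
    (hW0 : ∀ l, constantCoeff (W l) ≠ 0)
    (hrel : d⁄dX K v = C c * e + ∑ l, C (g l) * (d⁄dX K (W l) * (W l)⁻¹)) :
    (∀ l, d⁄dX K (W l) = 0) ∧ c = 0 := by
  by_cases h0 : constantCoeff t = 0
  · have hu0 : IsAlgebraic ℚ (constantCoeff u) := by
      apply root_alg q (by
        rintro rfl
        simp at hdeg) hqa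
      have h1 := congrArg constantCoeff htu
      rw [map_pow, h0, zero_pow two_ne_zero, Polynomial.aeval_def, Polynomial.hom_eval₂] at h1
      have h2 : (constantCoeff : K⟦X⟧ →+* K).comp (algebraMap K K⟦X⟧) = RingHom.id K := by
        ext a
        rw [RingHom.comp_apply, PowerSeries.algebraMap_apply]
        exact constantCoeff_C _
      rw [h2] at h1
      exact h1.symm
    exact LCG g hg c q hdeg hsq hqa u t e htu ht0 he hu0 hdu v W hv hu ht hW hW0 hrel
  · obtain ⟨q1, u1, t1, h1, h2, h3, h4, h5, h6, h7, h8⟩ := translate q hdeg hsq hqa u t htu h0 hdu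
    have h9 : -e * t1 = d⁄dX K u1 := by
      apply mul_right_cancel₀ ht0
      rw [h6, ← he]
      ring
    have ht1 : t1 ≠ 0 := by
      rintro rfl
      apply h7
      rw [← h9, mul_zero]
    have h10 := LCG g hg (-c) q1 h1 h2 h3 u1 t1 (-e) h4 ht1 h9 (by
      rw [h5]
      exact isAlgebraic_zero) h7 v W hv (h8 hu ht).1 (h8 hu ht).2 hW hW0 (by
      rw [hrel, map_neg]
      ring)
    exact ⟨h10.1, neg_eq_zero.1 h10.2⟩

theorem LCF [IsAlgClosed K] {r : ℕ} (g : Fin r → K)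
    (hg : ∀ e : Fin r → ℤ, ∑ l, (e l : K) * g l = 0 → e = 0)
    (v u t : K⟦X⟧) (W : Fin r → K⟦X⟧) (c : K) (q : Polynomial K)
    (hdeg : q.natDegree = 3 ∨ q.natDegree = 4) (hsq : Squarefree q)
    (hqa : ∀ i, IsAlgebraic ℚ (q.coeff i))
    (hv : IsAlgebraic (AK K) v) (hu : IsAlgebraic (AK K) u) (ht : IsAlgebraic (AK K) t)
    (hW : ∀ l, IsAlgebraic (AK K) (W l)) (hW0 : ∀ l, constantCoeff (W l) ≠ 0)
    (htu : t ^ 2 = Polynomial.aeval u q) (ht0 : t ≠ 0) (e : K⟦X⟧) (he : e * t = d⁄dX K u)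
    (hdu : d⁄dX K u ≠ 0)
    (hrel : d⁄dX K v = C c * e + ∑ l, C (g l) * (d⁄dX K (W l) * (W l)⁻¹)) :
    (∀ l, d⁄dX K (W l) = 0) ∧ c = 0 := by
  rcases hdeg with hdeg | hdeg
  · exact LCF3 g hg c q hdeg hsq hqa u t e htu ht0 he hdu v W hv hu ht hW hW0 hrel
  · obtain ⟨q1, u1, t1, h1, h2, h3, h4, h6, h7, h8⟩ := quartic_ps q hdeg hsq hqa u t htu hdu
    have h9 : -e * t1 = d⁄dX K u1 := by
      apply mul_right_cancel₀ ht0
      rw [h6, ← he]
      ring
    have ht1 : t1 ≠ 0 := by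
      rintro rfl
      apply h7
      rw [← h9, mul_zero]
    have h10 := LCF3 g hg (-c) q1 h1 h2 h3 u1 t1 (-e) h4 ht1 h9 h7 v W hv (h8 hu ht).1
      (h8 hu ht).2 hW hW0 (by
      rw [hrel, map_neg]
      ring)
    exact ⟨h10.1, neg_eq_zero.1 h10.2⟩

end Pool.Agent.H10.EL
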