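import Mathlib
import Pool.Agent.H10.EC.MainC

/-!
Series with property 3 which are algebraic over the field generated by power series, their
exponentials and one elliptic function, when the transcendence degree is the least possible.
-/

set_option autoImplicit false

namespace Pool.Agent.H10.EL

open PowerSeries Pool.Agent.H96.FI Pool.Agent.H10.EX Pool.Agent.H10.EC

variable {K : Type} [Field K] [CharZero K]

theorem relE {n : ℕ} (x w : Fin n → K⟦X⟧)
    (t : Fin (n + 1) → K⟦X⟧)
    (hw : ∀ i, d⁄dX K (w i) = d⁄dX K (x i) * w i) (hw0 : ∀ i, w i ≠ 0)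
    (q : Polynomial K)
    (y u s : K⟦X⟧) (hsu : s ^ 2 = Polynomial.aeval u q) (hyu : d⁄dX K y * s = d⁄dX K u)
    (hu0 : d⁄dX K u ≠ 0)
    (hxt : ∀ i, IsAlgebraic (Algebra.adjoin K (insert X (Set.range t))) (x i))
    (hwt : ∀ i, IsAlgebraic (Algebra.adjoin K (insert X (Set.range t))) (w i))
    (hyt : IsAlgebraic (Algebra.adjoin K (insert X (Set.range t))) y)
    (hut : IsAlgebraic (Algebra.adjoin K (insert X (Set.range t))) u)
    (g : K⟦X⟧) (hg3 : g ∈ AK K)
    (hg : IsAlgebraic (Algebra.adjoin K (insert X (Set.range t))) g)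
    (htr : ¬ IsAlgebraic (Polynomial K) g) :
    ∃ c : Fin (n + 1) → K, c ≠ 0 ∧
      ∀ D : Derivation (AK K) (FractionRing K⟦X⟧) (FractionRing K⟦X⟧),
        algebraMap K (FractionRing K⟦X⟧) (c 0) *
          (D (algebraMap K⟦X⟧ (FractionRing K⟦X⟧) y) -
            D (algebraMap K⟦X⟧ (FractionRing K⟦X⟧) u) / algebraMap K⟦X⟧ (FractionRing K⟦X⟧) s) +
        ∑ i : Fin n, algebraMap K (FractionRing K⟦X⟧) (c i.succ) *
          (D (algebraMap K⟦X⟧ (FractionRing K⟦X⟧) (x i)) -
            D (algebraMap K⟦X⟧ (FractionRing K⟦X⟧) (w i)) /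
              algebraMap K⟦X⟧ (FractionRing K⟦X⟧) (w i)) = 0 := by
  classical
  have hchar : CharZero (FractionRing K⟦X⟧) :=
    charZero_of_injective_algebraMap (algebraMap K (FractionRing K⟦X⟧)).injective
  obtain ⟨dd, hdd, hconst⟩ := Pool.Agent.H46.GAL.exists_dd K
  set J := algebraMap K⟦X⟧ (FractionRing K⟦X⟧) with hJ
  have hinj : Function.Injective J := IsFractionRing.injective K⟦X⟧ (FractionRing K⟦X⟧)
  have hJC : ∀ c : K, J (C c) = algebraMap K (FractionRing K⟦X⟧) c := by
    intro c
    rw [IsScalarTower.algebraMap_apply K K⟦X⟧ (FractionRing K⟦X⟧)]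
    rfl
  have hJ0 : ∀ y : K⟦X⟧, y ≠ 0 → J y ≠ 0 := fun y hy h => hy (hinj (h.trans (map_zero J).symm))
  have hs0 : s ≠ 0 := by
    intro h0
    apply hu0
    rw [← hyu, h0, mul_zero]
  have hJs : J s ≠ 0 := hJ0 s hs0
  have hJsu : J s ^ 2 = Polynomial.aeval (J u) q := by
    rw [← map_pow, hsu]
    exact (Polynomial.aeval_algebraMap_apply (FractionRing K⟦X⟧) u q).symm
  have hquad : ∀ E : FractionRing K⟦X⟧ → FractionRing K⟦X⟧,
      (∀ a b, E (a * b) = a * E b + b * E a) → (∀ a b, E (a + b) = E a + E b) →
      (∀ c : K, E (algebraMap K (FractionRing K⟦X⟧) c) = 0) →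
      2 * J s * E (J s) = Polynomial.aeval (J u) (Polynomial.derivative q) * E (J u) := by
    intro E hmul hadd hC
    have hpow : ∀ (z : FractionRing K⟦X⟧) (k : ℕ), E (z ^ k) = (k : FractionRing K⟦X⟧) *
        z ^ (k - 1) * E z := by
      intro z k
      induction k with
      | zero =>
        have h1 := hC 1
        rw [map_one] at h1
        rw [pow_zero, h1]
        simp
      | succ k ih =>
        rw [pow_succ, hmul, ih]
        rcases Nat.eq_zero_or_pos k with h0 | hpos
        · subst h0
          simp
        · obtain ⟨j, rfl⟩ : ∃ j, k = j + 1 := ⟨k - 1, by omega⟩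
          simp only [Nat.add_sub_cancel]
          push_cast
          ring
    have haev : ∀ p : Polynomial K, E (Polynomial.aeval (J u) p) =
        Polynomial.aeval (J u) (Polynomial.derivative p) * E (J u) := by
      intro p
      induction p using Polynomial.induction_on' with
      | add p1 p2 h1 h2 =>
        rw [map_add, hadd, h1, h2, Polynomial.derivative_add, map_add, add_mul]
      | monomial k c =>
        rw [Polynomial.aeval_monomial, hmul, hC, hpow, Polynomial.derivative_monomial,
          Polynomial.aeval_monomial, map_mul, map_natCast]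
        ring
    have h1 := hmul (J s) (J s)
    have h2 : J s * J s = Polynomial.aeval (J u) q := by rw [← pow_two, hJsu]
    rw [h2, haev q] at h1
    linear_combination -h1
  have hkill : ∀ (D : Derivation (AK K) (FractionRing K⟦X⟧) (FractionRing K⟦X⟧)) (r : K⟦X⟧),
      r ∈ AK K → D (J r) = 0 := by
    intro D r hr
    exact D.map_algebraMap (⟨r, hr⟩ : AK K)
  have hDC : ∀ (D : Derivation (AK K) (FractionRing K⟦X⟧) (FractionRing K⟦X⟧)) (c : K),
      D (algebraMap K (FractionRing K⟦X⟧) c) = 0 := by
    intro D c
    rw [← hJC]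
    exact hkill D _ (C_mem c)
  -- functions killing `z` and the `t j` kill everything algebraic over them
  have hgen : ∀ E : FractionRing K⟦X⟧ → FractionRing K⟦X⟧, (∀ a b, E (a + b) = E a + E b) →
      (∀ a b, E (a * b) = a * E b + b * E a) → (∀ c : K, E (J (C c)) = 0) → E (J X) = 0 →
      (∀ j, E (J (t j)) = 0) → ∀ y : K⟦X⟧,
      IsAlgebraic (Algebra.adjoin K (insert X (Set.range t))) y → E (J y) = 0 := by
    intro E hadd hmul hC hX ht y hy
    have hB : ∀ b ∈ Algebra.adjoin K (insert X (Set.range t)), E (J b) = 0 := by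
      intro b hb
      induction hb using Algebra.adjoin_induction with
      | mem b hb =>
        rcases hb with rfl | ⟨j, rfl⟩
        · exact hX
        · exact ht j
      | algebraMap c => exact hC c
      | add a b _ _ ha hb => rw [map_add, hadd, ha, hb, add_zero]
      | mul a b _ _ ha hb => rw [map_mul, hmul, ha, hb, mul_zero, mul_zero, add_zero]
    have hinjB : Function.Injective (algebraMap (Algebra.adjoin K (insert X (Set.range t)))
        (FractionRing K⟦X⟧)) := by
      intro a b hab
      exact Subtype.ext (hinj hab)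
    refine der_alg hinjB E hadd hmul (fun a => hB a a.2) (J y) ?_
    exact (isAlgebraic_algebraMap_iff (R := Algebra.adjoin K (insert X (Set.range t))) hinj).2 hy
  -- a derivation over the polynomials which moves `g`
  have htr' : ¬ IsAlgebraic (Polynomial K) (J g) := by
    intro h
    exact htr ((isAlgebraic_algebraMap_iff (R := Polynomial K) hinj).1 h)
  obtain ⟨D', hD'⟩ := exists_derivation (A := Polynomial K) _ htr'
  have hDpol : ∀ q : Polynomial K, D' (J (q : K⟦X⟧)) = 0 := by
    intro q
    have h := D'.map_algebraMap q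
    rw [IsScalarTower.algebraMap_apply (Polynomial K) K⟦X⟧ (FractionRing K⟦X⟧),
      algMap_eq] at h
    exact h
  -- the two maps
  let τ : Derivation (AK K) (FractionRing K⟦X⟧) (FractionRing K⟦X⟧) →ₗ[FractionRing K⟦X⟧]
      (Fin (n + 1) → FractionRing K⟦X⟧) :=
    { toFun := fun D j => D (J (t j))
      map_add' := fun D E => by
        funext j
        rfl
      map_smul' := fun c D => by
        funext j
        rfl }
  let ev0 : Derivation (AK K) (FractionRing K⟦X⟧) (FractionRing K⟦X⟧) → Fin n →
      FractionRing K⟦X⟧ := fun D i => D (J (x i)) - D (J (w i)) / J (w i)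
  let ev : Derivation (AK K) (FractionRing K⟦X⟧) (FractionRing K⟦X⟧) →ₗ[FractionRing K⟦X⟧]
      (Fin (n + 1) → FractionRing K⟦X⟧) :=
    { toFun := fun D => Fin.cons (D (J y) - D (J u) / J s) (ev0 D)
      map_add' := fun D E => by
        funext i
        refine Fin.cases ?_ (fun i => ?_) i
        · show (D + E) (J y) - (D + E) (J u) / J s =
            (D (J y) - D (J u) / J s) + (E (J y) - E (J u) / J s)
          rw [Derivation.add_apply, Derivation.add_apply]
          ring
        · show (D + E) (J (x i)) - (D + E) (J (w i)) / J (w i) =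
            (D (J (x i)) - D (J (w i)) / J (w i)) + (E (J (x i)) - E (J (w i)) / J (w i))
          rw [Derivation.add_apply, Derivation.add_apply]
          ring
      map_smul' := fun c D => by
        funext i
        refine Fin.cases ?_ (fun i => ?_) i
        · show (c • D) (J y) - (c • D) (J u) / J s = c * (D (J y) - D (J u) / J s)
          rw [Derivation.smul_apply, Derivation.smul_apply, smul_eq_mul, smul_eq_mul]
          ring
        · show (c • D) (J (x i)) - (c • D) (J (w i)) / J (w i) =
            c * (D (J (x i)) - D (J (w i)) / J (w i))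
          rw [Derivation.smul_apply, Derivation.smul_apply, smul_eq_mul, smul_eq_mul]
          ring }
  have hev0 : ∀ D, ev D 0 = D (J y) - D (J u) / J s := fun D => rfl
  have hev : ∀ D (i : Fin n), ev D i.succ = D (J (x i)) - D (J (w i)) / J (w i) := fun D i => rfl
  have hτ : ∀ D j, τ D j = D (J (t j)) := fun D j => rfl
  have hmulD : ∀ (D : Derivation (AK K) (FractionRing K⟦X⟧) (FractionRing K⟦X⟧)) a b,
      D (a * b) = a * D b + b * D a := by
    intro D a b
    rw [Derivation.leibniz, smul_eq_mul, smul_eq_mul]
  have hker : ∀ D, τ D = 0 → ev D = 0 := by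
    intro D hD
    have ht : ∀ j, D (J (t j)) = 0 := fun j => congrFun hD j
    have hall := hgen D (fun a b => map_add D a b) (hmulD D)
      (fun c => by rw [hJC]; exact hDC D c) (hkill D _ X_mem) ht
    funext i
    refine Fin.cases ?_ (fun i => ?_) i
    · rw [hev0, hall _ hyt, hall _ hut, zero_div, sub_zero]
      rfl
    · rw [hev, hall _ (hxt i), hall _ (hwt i), zero_div, sub_zero]
      rfl
  have hna : ∀ D, τ D ≠ fun j => D' (J (t j)) := by
    intro D hD
    have h1 := hgen (fun y => D' y - D y) (fun a b => by
        simp only [map_add]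
        ring)
      (fun a b => by
        simp only [Derivation.leibniz, smul_eq_mul]
        ring)
      (fun c => by
        have h2 := hDpol (Polynomial.C c)
        rw [Polynomial.coe_C] at h2
        rw [h2, hkill D _ (C_mem c), sub_zero])
      (by
        have h2 := hDpol Polynomial.X
        rw [Polynomial.coe_X] at h2
        rw [h2, hkill D _ X_mem, sub_zero])
      (fun j => by
        have h2 := congrFun hD j
        rw [hτ] at h2
        rw [h2, sub_self]) g hg
    rw [hD', hkill D g hg3, sub_zero] at h1
    exact one_ne_zero h1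
  obtain ⟨c0, hc0, hc0'⟩ : ∃ c : Fin (n + 1) → FractionRing K⟦X⟧, c ≠ 0 ∧
      ∀ D, ∑ i, c i * ev D i = 0 :=
    @exists_ann (FractionRing K⟦X⟧)
      (Derivation (AK K) (FractionRing K⟦X⟧) (FractionRing K⟦X⟧)) _ _ _ (n + 1) τ ev hker
      (fun j => D' (J (t j))) hna
  -- the annihilator
  let P : Submodule (FractionRing K⟦X⟧) (Fin (n + 1) → FractionRing K⟦X⟧) :=
    { carrier := {c | ∀ D, ∑ i, c i * ev D i = 0}
      add_mem' := by
        intro a b ha hb D
        simp only [Pi.add_apply, add_mul, Finset.sum_add_distrib]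
        rw [ha D, hb D, add_zero]
      zero_mem' := by
        intro D
        simp
      smul_mem' := by
        intro s a ha D
        simp only [Pi.smul_apply, smul_eq_mul, mul_assoc]
        rw [← Finset.mul_sum, ha D, mul_zero] }
  have hPmem : ∀ c, c ∈ P ↔ ∀ D, ∑ i, c i * ev D i = 0 := fun c => Iff.rfl
  have hPne : P ≠ ⊥ := by
    intro h0
    apply hc0
    have : c0 ∈ P := hc0'
    rw [h0] at this
    exact this
  have hwder : ∀ i, dd (J (w i)) = dd (J (x i)) * J (w i) := by
    intro i
    rw [hdd, hdd, hw i, map_mul]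
  have hPd : ∀ c ∈ P, (fun i => dd (c i)) ∈ P := by
    intro c hc D
    obtain ⟨D2, hD2⟩ := exists_commC dd hdd D
    have h1 : ∀ i, dd (ev D i) = ev D2 i := by
      intro i
      refine Fin.cases ?_ (fun i => ?_) i
      · have hs1 : D (J s) * (2 * J s) = Polynomial.aeval (J u) (Polynomial.derivative q) *
            D (J u) := by
          have e1 := hquad D (hmulD D) (fun a b => map_add D a b) (fun c => hDC D c)
          linear_combination e1
        have hs2 : dd (J s) * (2 * J s) = Polynomial.aeval (J u) (Polynomial.derivative q) *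
            dd (J u) := by
          have e1 := hquad dd (fun a b => by rw [Derivation.leibniz, smul_eq_mul, smul_eq_mul])
            (fun a b => map_add dd a b) (fun c => dd.map_algebraMap c)
          linear_combination e1
        have hyd : dd (J y) * J s = dd (J u) := by
          rw [hdd, hdd, ← map_mul, hyu]
        have e2 : D (J u) * dd (J s) = dd (J u) * D (J s) := by
          have h20 : (2 : FractionRing K⟦X⟧) * J s ≠ 0 := mul_ne_zero two_ne_zero hJs
          apply mul_right_cancel₀ h20
          linear_combination D (J u) * hs2 - dd (J u) * hs1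
        have e3 : dd (D (J u) / J s) =
            (dd (D (J u)) * J s - D (J u) * dd (J s)) / J s ^ 2 := by
          have e1 : D (J u) = D (J u) / J s * J s := by
            rw [div_mul_cancel₀ _ hJs]
          have e2 := congrArg dd e1
          rw [Derivation.leibniz, smul_eq_mul, smul_eq_mul] at e2
          rw [eq_div_iff (pow_ne_zero 2 hJs)]
          have e3 : D (J u) / J s * J s = D (J u) := div_mul_cancel₀ _ hJs
          linear_combination (-(J s)) * e2 + (-(dd (J s))) * e3
        have e4 : D (dd (J y)) * J s + dd (J y) * D (J s) = D (dd (J u)) := by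
          rw [← hyd, hmulD]
          ring
        have e5 : D (dd (J y)) = (D (dd (J u)) * J s - dd (J u) * D (J s)) / J s ^ 2 := by
          rw [eq_div_iff (pow_ne_zero 2 hJs)]
          linear_combination (J s) * e4 - (D (J s)) * hyd
        rw [hev0, hev0, map_sub, hD2, hD2, e3, e5, e2]
        field_simp
        ring
      have hwi := hJ0 _ (hw0 i)
      have h2 : dd (D (J (w i)) / J (w i)) =
          (dd (D (J (w i))) * J (w i) - D (J (w i)) * dd (J (w i))) / J (w i) ^ 2 := by
        have e1 : D (J (w i)) = D (J (w i)) / J (w i) * J (w i) := by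
          rw [div_mul_cancel₀ _ hwi]
        have e2 := congrArg dd e1
        rw [Derivation.leibniz, smul_eq_mul, smul_eq_mul] at e2
        rw [eq_div_iff (pow_ne_zero 2 hwi)]
        have e3 : D (J (w i)) / J (w i) * J (w i) = D (J (w i)) := div_mul_cancel₀ _ hwi
        linear_combination (-(J (w i))) * e2 + (-(dd (J (w i)))) * e3
      have h3 : D (dd (J (w i))) = D (dd (J (x i))) * J (w i) + dd (J (x i)) * D (J (w i)) := by
        rw [hwder i, hmulD]
        ring
      rw [hev, hev, map_sub, hD2, hD2, h2, h3, hwder i]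
      field_simp
      ring
    have h4 := congrArg dd (hc D)
    rw [map_zero, map_sum] at h4
    have h5 : ∀ i, dd (c i * ev D i) = dd (c i) * ev D i + c i * ev D2 i := by
      intro i
      rw [Derivation.leibniz, smul_eq_mul, smul_eq_mul, h1]
      ring
    rw [Finset.sum_congr rfl fun i _ => h5 i, Finset.sum_add_distrib, hc D2, add_zero] at h4
    exact h4
  obtain ⟨c, hcne, hcP⟩ := exists_const dd hconst P hPd hPne
  refine ⟨c, hcne, fun D => ?_⟩
  have h2 := (hPmem _).1 hcP D
  rw [Fin.sum_univ_succ] at h2
  exact h2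

end Pool.Agent.H10.EL
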