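import Mathlib
import Pool.Agent.H10.EC.MainC
import Pool.Agent.H10.EL.RelE
import Pool.Agent.H10.EL.LCF
import Pool.Agent.H10.EL.Zero

/-!
Series with property 3 which are algebraic over the field generated by power series, their
exponentials and one elliptic function, when the transcendence degree is the least possible.
-/

set_option autoImplicit false

namespace Pool.Agent.H10.EL

open PowerSeries Pool.Agent.H96.FI Pool.Agent.H10.EX Pool.Agent.H10.EC

variable {K : Type} [Field K] [CharZero K]

theorem mainG [IsAlgClosed K] {n : ℕ} (x w : Fin n → K⟦X⟧)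
    (t : Fin (n + 1) → K⟦X⟧)
    (hw : ∀ i, d⁄dX K (w i) = d⁄dX K (x i) * w i) (hw0 : ∀ i, w i ≠ 0)
    (hind : ∀ m : Fin n → ℤ, (∃ c : K, ∑ i, (m i : K⟦X⟧) * x i = C c) → m = 0)
    (q : Polynomial K) (hdeg : q.natDegree = 3 ∨ q.natDegree = 4) (hsq : Squarefree q)
    (hqa : ∀ i, IsAlgebraic ℚ (q.coeff i)) (y u s : K⟦X⟧) (hsu : s ^ 2 = Polynomial.aeval u q) (hyu : d⁄dX K y * s = d⁄dX K u)
    (hu0 : d⁄dX K u ≠ 0)
    (hxt : ∀ i, IsAlgebraic (Algebra.adjoin K (insert X (Set.range t))) (x i))
    (hwt : ∀ i, IsAlgebraic (Algebra.adjoin K (insert X (Set.range t))) (w i))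
    (hyt : IsAlgebraic (Algebra.adjoin K (insert X (Set.range t))) y)
    (hut : IsAlgebraic (Algebra.adjoin K (insert X (Set.range t))) u)
    (g : K⟦X⟧) (hg3 : g ∈ AK K)
    (hg : IsAlgebraic (Algebra.adjoin K (insert X (Set.range t))) g) :
    IsAlgebraic (Polynomial K) g := by
  classical
  by_contra htr
  have hchar : CharZero (FractionRing K⟦X⟧) :=
    charZero_of_injective_algebraMap (algebraMap K (FractionRing K⟦X⟧)).injective
  obtain ⟨c, hcne, hcP⟩ := relE x w t hw hw0 q y u s hsu hyu hu0 hxt hwt hyt hut g hg3 hg htr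
  set J := algebraMap K⟦X⟧ (FractionRing K⟦X⟧) with hJ
  have hinj : Function.Injective J := IsFractionRing.injective K⟦X⟧ (FractionRing K⟦X⟧)
  have hJC : ∀ c : K, J (C c) = algebraMap K (FractionRing K⟦X⟧) c := by
    intro c
    rw [IsScalarTower.algebraMap_apply K K⟦X⟧ (FractionRing K⟦X⟧)]
    rfl
  have hJ0 : ∀ y : K⟦X⟧, y ≠ 0 → J y ≠ 0 := fun y hy h => hy (hinj (h.trans (map_zero J).symm))
  have hs0 : s ≠ 0 := by
    intro h0
    apply hu0
    rw [← hyu, h0, mul_zero]
  have hJs : J s ≠ 0 := hJ0 s hs0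
  have hJsu : J s ^ 2 = Polynomial.aeval (J u) q := by
    rw [← map_pow, hsu]
    exact (Polynomial.aeval_algebraMap_apply (FractionRing K⟦X⟧) u q).symm
  have hkill : ∀ (D : Derivation (AK K) (FractionRing K⟦X⟧) (FractionRing K⟦X⟧)) (r : K⟦X⟧),
      r ∈ AK K → D (J r) = 0 := by
    intro D r hr
    exact D.map_algebraMap (⟨r, hr⟩ : AK K)
  have hDC : ∀ (D : Derivation (AK K) (FractionRing K⟦X⟧) (FractionRing K⟦X⟧)) (c : K),
      D (algebraMap K (FractionRing K⟦X⟧) c) = 0 := by
    intro D c
    rw [← hJC]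
    exact hkill D _ (C_mem c)
  have hmulD : ∀ (D : Derivation (AK K) (FractionRing K⟦X⟧) (FractionRing K⟦X⟧)) a b,
      D (a * b) = a * D b + b * D a := by
    intro D a b
    rw [Derivation.leibniz, smul_eq_mul, smul_eq_mul]
  obtain ⟨r, N, gam, a, hN, hNc, hgam, -⟩ := exists_basis_span (fun i : Fin n => c i.succ)
  choose W hW0 hWder hWmem hwinv hWlog using fun l => exists_prod x w hw hw0 (fun i => a i l)
  set c1 : K := (N : K) * c 0 with hc1
  set v : K⟦X⟧ := (N : K⟦X⟧) * (C (c 0) * y + ∑ i : Fin n, C (c i.succ) * x i) with hv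
  have hDv : ∀ D : Derivation (AK K) (FractionRing K⟦X⟧) (FractionRing K⟦X⟧),
      D (J v) = algebraMap K (FractionRing K⟦X⟧) c1 * (D (J u) / J s) +
        ∑ l, algebraMap K (FractionRing K⟦X⟧) (gam l) * (D (J (W l)) / J (W l)) := by
    intro D
    have h1 : D (J v) = (N : FractionRing K⟦X⟧) * (algebraMap K (FractionRing K⟦X⟧) (c 0) *
        D (J y) + ∑ i : Fin n, algebraMap K (FractionRing K⟦X⟧) (c i.succ) * D (J (x i))) := by
      rw [hv, map_mul, map_natCast, hmulD, Derivation.map_natCast, mul_zero, add_zero, map_add,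
        map_add, map_sum, map_sum, map_mul, hmulD, hJC, hDC, mul_zero, add_zero]
      congr 2
      refine Finset.sum_congr rfl fun i _ => ?_
      rw [map_mul, hmulD, hJC, hDC, mul_zero, add_zero]
    have h2 := hcP D
    have h3 : ∑ i : Fin n, algebraMap K (FractionRing K⟦X⟧) (c i.succ) * D (J (x i)) =
        ∑ i : Fin n, algebraMap K (FractionRing K⟦X⟧) (c i.succ) * (D (J (w i)) / J (w i)) -
        algebraMap K (FractionRing K⟦X⟧) (c 0) * (D (J y) - D (J u) / J s) := by
      have e1 : ∑ i : Fin n, algebraMap K (FractionRing K⟦X⟧) (c i.succ) * D (J (x i)) =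
          ∑ i : Fin n, algebraMap K (FractionRing K⟦X⟧) (c i.succ) * (D (J (w i)) / J (w i)) +
          ∑ i : Fin n, algebraMap K (FractionRing K⟦X⟧) (c i.succ) *
            (D (J (x i)) - D (J (w i)) / J (w i)) := by
        rw [← Finset.sum_add_distrib]
        refine Finset.sum_congr rfl fun i _ => ?_
        ring
      rw [e1]
      linear_combination h2
    rw [h1, h3]
    have h4 : ∀ l, D (J (W l)) / J (W l) = ∑ i, (a i l : FractionRing K⟦X⟧) *
        (D (J (w i)) / J (w i)) := by
      intro l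
      obtain ⟨E, hE⟩ := exists_intDer D
      have h5 := hWlog l (FractionRing K⟦X⟧) hinj E
      rw [hE] at h5
      rw [h5]
      refine Finset.sum_congr rfl fun i _ => ?_
      rw [hE]
    simp only [h4]
    have h5 : ∀ i : Fin n, (N : FractionRing K⟦X⟧) * (algebraMap K (FractionRing K⟦X⟧) (c i.succ) *
        (D (J (w i)) / J (w i))) = ∑ l, algebraMap K (FractionRing K⟦X⟧) (gam l) *
        ((a i l : FractionRing K⟦X⟧) * (D (J (w i)) / J (w i))) := by
      intro i
      have h6 := congrArg (algebraMap K (FractionRing K⟦X⟧)) (hNc i)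
      rw [map_mul, map_natCast, map_sum] at h6
      rw [← mul_assoc, h6, Finset.sum_mul]
      refine Finset.sum_congr rfl fun l _ => ?_
      rw [map_mul, map_intCast]
      ring
    have h7 : (N : FractionRing K⟦X⟧) * ∑ i : Fin n, algebraMap K (FractionRing K⟦X⟧) (c i.succ) *
        (D (J (w i)) / J (w i)) = ∑ l, algebraMap K (FractionRing K⟦X⟧) (gam l) *
        ∑ i, (a i l : FractionRing K⟦X⟧) * (D (J (w i)) / J (w i)) := by
      rw [Finset.mul_sum, Finset.sum_congr rfl fun i _ => h5 i, Finset.sum_comm]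
      refine Finset.sum_congr rfl fun l _ => ?_
      rw [Finset.mul_sum]
    rw [← h7, hc1, map_mul, map_natCast]
    ring
  have hgamΩ : ∀ e : Fin r → ℤ, ∑ l, (e l : FractionRing K⟦X⟧) *
      algebraMap K (FractionRing K⟦X⟧) (gam l) = 0 → e = 0 := by
    intro e he
    apply hgam e
    apply (algebraMap K (FractionRing K⟦X⟧)).injective
    rw [map_zero, map_sum, ← he]
    refine Finset.sum_congr rfl fun l _ => ?_
    rw [map_mul, map_intCast]
  have hgamA : ∀ e : Fin r → ℤ, ∑ l, (e l : FractionRing K⟦X⟧) *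
      algebraMap (AK K) (FractionRing K⟦X⟧) (⟨C (gam l), C_mem _⟩ : AK K) = 0 → e = 0 := by
    intro e he
    apply hgamΩ e
    rw [← he]
    refine Finset.sum_congr rfl fun l _ => ?_
    rw [← hJC]
    rfl
  -- the elliptic term
  have hell : c1 = 0 ∨ IsAlgebraic (AK K) (J u) := by
    have hq' : (q.map (algebraMap K (AK K))).natDegree = q.natDegree :=
      Polynomial.natDegree_map_eq_of_injective (FaithfulSMul.algebraMap_injective K (AK K)) q
    have hcomp : (algebraMap (AK K) (FractionRing K⟦X⟧)).comp (algebraMap K (AK K)) =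
        algebraMap K (FractionRing K⟦X⟧) :=
      (IsScalarTower.algebraMap_eq K (AK K) (FractionRing K⟦X⟧)).symm
    have h1 := ell_zero hinjAK (fun l => (⟨C (gam l), C_mem _⟩ : AK K)) hgamA (fun l => J (W l))
      (fun l => hJ0 _ (hW0 l)) (J v) (J u) (J s) (q.map (algebraMap K (AK K))) (by
        rw [hq']
        rcases hdeg with h | h
        · exact Or.inl h
        · right
          refine ⟨h, ?_⟩
          have hpos : 0 < q.natDegree := by omega
          obtain ⟨z, hz⟩ := IsAlgClosed.exists_root q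
            (Polynomial.natDegree_pos_iff_degree_pos.1 hpos).ne'
          refine ⟨algebraMap K (AK K) z, ?_⟩
          rw [Polynomial.eval_map_algebraMap, Polynomial.aeval_algebraMap_apply]
          have : Polynomial.aeval z q = 0 := hz
          rw [this, map_zero]) (by
        rw [Polynomial.map_map, hcomp]
        exact ((PerfectField.separable_iff_squarefree).2 hsq).map) (by
        rw [hJsu, Polynomial.aeval_map_algebraMap]) (⟨C c1, C_mem _⟩ : AK K) (by
        intro D
        rw [hDv D]
        have e1 : algebraMap K (FractionRing K⟦X⟧) c1 =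
            algebraMap (AK K) (FractionRing K⟦X⟧) (⟨C c1, C_mem _⟩ : AK K) := by
          rw [← hJC]
          rfl
        have e2 : ∀ l, algebraMap K (FractionRing K⟦X⟧) (gam l) =
            algebraMap (AK K) (FractionRing K⟦X⟧) (⟨C (gam l), C_mem _⟩ : AK K) := by
          intro l
          rw [← hJC]
          rfl
        rw [e1]
        simp only [e2])
    rcases h1 with h1 | h1
    · left
      have h2 : (C c1 : K⟦X⟧) = 0 := congrArg Subtype.val h1
      have h3 := congrArg constantCoeff h2
      rwa [constantCoeff_C, map_zero] at h3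
    · exact Or.inr h1
  have hzero : ∀ D : Derivation (AK K) (FractionRing K⟦X⟧) (FractionRing K⟦X⟧),
      algebraMap K (FractionRing K⟦X⟧) c1 * (D (J u) / J s) = 0 := by
    intro D
    rcases hell with h | h
    · rw [h, map_zero, zero_mul]
    · rw [der_alg hinjAK D (fun a b => map_add D a b) (hmulD D)
        (fun a => D.map_algebraMap a) _ h, zero_div, mul_zero]
  have hDv' : ∀ D : Derivation (AK K) (FractionRing K⟦X⟧) (FractionRing K⟦X⟧),
      D (J v) = ∑ l, algebraMap K (FractionRing K⟦X⟧) (gam l) * (D (J (W l)) / J (W l)) := by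
    intro D
    rw [hDv D, hzero D, zero_add]
  have hWalg : ∀ l, IsAlgebraic (AK K) (J (W l)) := by
    intro l
    refine rosenlicht hinjAK (fun l => (⟨C (gam l), C_mem _⟩ : AK K)) hgamA (fun l => J (W l))
      (fun l => hJ0 _ (hW0 l)) (J v) ?_ l
    intro D
    rw [hDv' D]
    refine Finset.sum_congr rfl fun l _ => ?_
    rw [← hJC]
    rfl
  have hvalg : IsAlgebraic (AK K) (J v) := by
    by_contra hcon
    obtain ⟨D, hD⟩ := exists_derivation (A := AK K) _ hcon
    rw [hDv' D, Finset.sum_eq_zero] at hD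
    · exact zero_ne_one hD
    · intro l _
      rw [der_alg hinjAK D (fun a b => map_add D a b) (hmulD D)
        (fun a => D.map_algebraMap a) _ (hWalg l), zero_div, mul_zero]
  have hWc : ∀ l, constantCoeff (W l) ≠ 0 := by
    intro l
    refine constantCoeff_ne (∑ i, (a i l : K⟦X⟧) * x i) (W l) ?_ (hW0 l)
    rw [hWder l, map_sum]
    congr 1
    refine Finset.sum_congr rfl fun i _ => ?_
    rw [Derivation.leibniz, Derivation.map_intCast, smul_zero, add_zero, smul_eq_mul]
  -- the relation
  have hrel : d⁄dX K v = C c1 * d⁄dX K y + ∑ l, C (gam l) * (d⁄dX K (W l) * (W l)⁻¹) := by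
    have h1 : d⁄dX K v = (N : K⟦X⟧) * (C (c 0) * d⁄dX K y +
        ∑ i : Fin n, C (c i.succ) * d⁄dX K (x i)) := by
      rw [hv, Derivation.leibniz, Derivation.map_natCast, smul_zero, add_zero, smul_eq_mul,
        map_add, map_sum, Derivation.leibniz, der_const, smul_zero, add_zero, smul_eq_mul]
      congr 2
      refine Finset.sum_congr rfl fun i _ => ?_
      rw [Derivation.leibniz, der_const, smul_zero, add_zero, smul_eq_mul]
    have h2 : ∀ l, d⁄dX K (W l) * (W l)⁻¹ = ∑ i, (a i l : K⟦X⟧) * d⁄dX K (x i) := by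
      intro l
      rw [hWder l, mul_assoc, PowerSeries.mul_inv_cancel _ (hWc l), mul_one]
    simp only [h2]
    have h5 : ∀ i : Fin n, (N : K⟦X⟧) * (C (c i.succ) * d⁄dX K (x i)) =
        ∑ l, C (gam l) * ((a i l : K⟦X⟧) * d⁄dX K (x i)) := by
      intro i
      have h6 := congrArg (C : K → K⟦X⟧) (hNc i)
      rw [map_mul, map_natCast, map_sum] at h6
      rw [← mul_assoc, h6, Finset.sum_mul]
      refine Finset.sum_congr rfl fun l _ => ?_
      rw [map_mul, map_intCast]
      ring
    have h7 : (N : K⟦X⟧) * ∑ i : Fin n, C (c i.succ) * d⁄dX K (x i) =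
        ∑ l, C (gam l) * ∑ i, (a i l : K⟦X⟧) * d⁄dX K (x i) := by
      rw [Finset.mul_sum, Finset.sum_congr rfl fun i _ => h5 i, Finset.sum_comm]
      refine Finset.sum_congr rfl fun l _ => ?_
      rw [Finset.mul_sum]
    rw [h1, ← h7, hc1, map_mul, map_natCast]
    ring
  have hfin : (∀ l, d⁄dX K (W l) = 0) ∧ c1 = 0 := by
    by_cases h0 : c1 = 0
    · refine ⟨fun l => ?_, h0⟩
      refine LC gam hgam v W ((algAK_iff v).1 hvalg) (fun l => (algAK_iff (W l)).1 (hWalg l)) hWc
        ?_ l
      rw [hrel, h0, map_zero, zero_mul, zero_add]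
    · have hua := hell.resolve_left h0
      have hsa : IsAlgebraic (AK K) (J s) := by
        have e0 : ∀ p : Polynomial K, IsAlgebraic (AK K) (Polynomial.aeval (J u) p) := by
          intro p
          induction p using Polynomial.induction_on' with
          | add p1 p2 h1 h2 =>
            rw [map_add]
            exact h1.add h2
          | monomial k c =>
            rw [Polynomial.aeval_monomial, ← hJC]
            exact ((algAK_iff _).2 (algC c)).mul (hua.pow k)
        have e1 : IsAlgebraic (AK K) (J s ^ 2) := by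
          rw [hJsu]
          exact e0 q
        exact IsAlgebraic.of_pow (by norm_num) e1
      have h1 := LCF gam hgam v u s W c1 q hdeg hsq hqa ((algAK_iff v).1 hvalg)
        ((algAK_iff u).1 hua) ((algAK_iff s).1 hsa) (fun l => (algAK_iff (W l)).1 (hWalg l)) hWc
        hsu hs0 (d⁄dX K y) hyu hu0 hrel
      exact h1
  -- end
  have ha0 : ∀ l, (fun i => a i l) = 0 := by
    intro l
    have h1 : ∑ i, (a i l : K⟦X⟧) * d⁄dX K (x i) = 0 := by
      have h2 := hfin.1 l
      rw [hWder l] at h2
      exact (mul_eq_zero.1 h2).resolve_right (hW0 l)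
    apply hind
    refine ⟨constantCoeff (∑ i, (a i l : K⟦X⟧) * x i), ?_⟩
    apply PowerSeries.derivative.ext
    · rw [derivative_C, map_sum, ← h1]
      refine Finset.sum_congr rfl fun i _ => ?_
      rw [Derivation.leibniz, Derivation.map_intCast, smul_zero, add_zero, smul_eq_mul]
    · rw [constantCoeff_C]
  have hN0 : (N : K) ≠ 0 := by exact_mod_cast hN
  apply hcne
  funext i
  refine Fin.cases ?_ (fun i => ?_) i
  · exact (mul_eq_zero.1 hfin.2).resolve_left hN0
  · have h1 := hNc i
    rw [Finset.sum_eq_zero] at h1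
    · exact (mul_eq_zero.1 h1).resolve_left hN0
    · intro l _
      have h2 : a i l = 0 := congrFun (ha0 l) i
      rw [h2, Int.cast_zero, zero_mul]

end Pool.Agent.H10.EL
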