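import Mathlib
import Pool.Agent.H10.EL.MainG

/-!
The final form: change of the constant field.
-/

set_option autoImplicit false

namespace Pool.Agent.H10.EL

open PowerSeries Pool.Agent.H96.FI Pool.Agent.H10.EX Pool.Agent.H10.EC

theorem alg_map {K K' : Type} [Field K] [Field K'] (φ : K →+* K') {m : ℕ} (t : Fin m → K⟦X⟧)
    (y : K⟦X⟧) (hy : IsAlgebraic (Algebra.adjoin K (insert X (Set.range t))) y) :
    IsAlgebraic (Algebra.adjoin K' (insert X (Set.range fun j => PowerSeries.map φ (t j))))
      (PowerSeries.map φ y) := by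
  have hmapinj : Function.Injective (PowerSeries.map φ) := by
    intro a b hab
    ext n
    apply φ.injective
    rw [← coeff_map, hab, coeff_map]
  have hmem : ∀ a ∈ Algebra.adjoin K (insert X (Set.range t)), PowerSeries.map φ a ∈
      Algebra.adjoin K' (insert X (Set.range fun j => PowerSeries.map φ (t j))) := by
    intro a ha
    induction ha using Algebra.adjoin_induction with
    | mem b hb =>
      apply Algebra.subset_adjoin
      rcases hb with rfl | ⟨j, rfl⟩
      · left
        exact PowerSeries.map_X _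
      · right
        exact ⟨j, rfl⟩
    | algebraMap c =>
      have h1 : PowerSeries.map φ (algebraMap K K⟦X⟧ c) = algebraMap K' K'⟦X⟧ (φ c) := by
        rw [PowerSeries.algebraMap_apply, PowerSeries.algebraMap_apply]
        exact PowerSeries.map_C _ _
      rw [h1]
      exact Subalgebra.algebraMap_mem _ _
    | add a b _ _ ha hb => rw [map_add]; exact add_mem ha hb
    | mul a b _ _ ha hb => rw [map_mul]; exact mul_mem ha hb
  let ψ : Algebra.adjoin K (insert X (Set.range t)) →+*
      Algebra.adjoin K' (insert X (Set.range fun j => PowerSeries.map φ (t j))) :=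
    { toFun := fun a => ⟨PowerSeries.map φ a, hmem a a.2⟩
      map_one' := Subtype.ext (map_one _)
      map_mul' := fun a b => Subtype.ext (map_mul _ _ _)
      map_zero' := Subtype.ext (map_zero _)
      map_add' := fun a b => Subtype.ext (map_add _ _ _) }
  refine hy.ringHom_of_comp_eq ψ (PowerSeries.map φ) ?_ ?_
  · intro a b hab
    apply Subtype.ext
    apply hmapinj
    exact congrArg Subtype.val hab
  · rfl

theorem finalG {K : Type} [Field K] [CharZero K]
    (f : PowerSeries ℚ) (h3 : Pool.Agent.H96.LL.P3 f) {n : ℕ} (x w : Fin n → K⟦X⟧)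
    (t : Fin (n + 1) → K⟦X⟧)
    (hw : ∀ i, d⁄dX K (w i) = d⁄dX K (x i) * w i) (hw0 : ∀ i, w i ≠ 0)
    (hind : ∀ m : Fin n → ℤ, (∃ c : K, ∑ i, (m i : K⟦X⟧) * x i = C c) → m = 0)
    (q : Polynomial K) (hdeg : q.natDegree = 3 ∨ q.natDegree = 4) (hsq : Squarefree q)
    (hqa : ∀ i, IsAlgebraic ℚ (q.coeff i))
    (y u s : K⟦X⟧) (hsu : s ^ 2 = Polynomial.aeval u q) (hyu : d⁄dX K y * s = d⁄dX K u)
    (hu0 : d⁄dX K u ≠ 0)
    (hxt : ∀ i, IsAlgebraic (Algebra.adjoin K (insert X (Set.range t))) (x i))
    (hwt : ∀ i, IsAlgebraic (Algebra.adjoin K (insert X (Set.range t))) (w i))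
    (hyt : IsAlgebraic (Algebra.adjoin K (insert X (Set.range t))) y)
    (hut : IsAlgebraic (Algebra.adjoin K (insert X (Set.range t))) u)
    (e : ℕ) (he : 1 ≤ e) (g : K⟦X⟧)
    (hg : ∀ j, coeff j g = if e ∣ j then algebraMap ℚ K (coeff (j / e) f) else 0)
    (hgt : IsAlgebraic (Algebra.adjoin K (insert X (Set.range t))) g) :
    IsAlgebraic (Polynomial ℚ) f := by
  have he0 : e ≠ 0 := by omega
  let φ : K →+* AlgebraicClosure K := algebraMap K (AlgebraicClosure K)
  have : CharZero (AlgebraicClosure K) := charZero_of_injective_algebraMap φ.injective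
  have hqa' : ∀ i, IsAlgebraic ℚ ((q.map φ).coeff i) := by
    intro i
    rw [Polynomial.coeff_map]
    exact (hqa i).algebraMap
  have hmapinj : Function.Injective (PowerSeries.map φ) := by
    intro a b hab
    ext n
    apply φ.injective
    rw [← coeff_map, hab, coeff_map]
  have hmapd : ∀ a : K⟦X⟧, PowerSeries.map φ (d⁄dX K a) =
      d⁄dX (AlgebraicClosure K) (PowerSeries.map φ a) := by
    intro a
    ext n
    rw [coeff_map, coeff_derivative, coeff_derivative, coeff_map, map_mul, map_add, map_natCast,
      map_one]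
  have hg1 : PowerSeries.map φ g =
      PowerSeries.expand e he0 (PowerSeries.map (algebraMap ℚ (AlgebraicClosure K)) f) := by
    ext j
    rw [coeff_map, hg, PowerSeries.coeff_expand]
    split_ifs
    · rw [PowerSeries.coeff_map]
      exact RingHom.map_rat_algebraMap φ _
    · rw [map_zero]
  have hg2 : PowerSeries.map φ g =
      PowerSeries.map (algebraMap ℚ (AlgebraicClosure K)) (PowerSeries.expand e he0 f) := by
    rw [hg1]
    ext j
    rw [coeff_map, PowerSeries.coeff_expand, PowerSeries.coeff_expand]
    split_ifs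
    · rw [PowerSeries.coeff_map]
    · rw [map_zero]
  have hf3 : P3K (PowerSeries.expand e he0 f) := by
    apply Pool.Agent.H96.EA.P3K.expand
    have h4 := P3K.of_rat (K := ℚ) h3
    have h5 : ∀ φ : ℚ →+* ℚ, PowerSeries.map φ f = f := by
      intro φ
      have hφ : φ = RingHom.id ℚ := RingHom.ext fun x => RingHom.map_rat_algebraMap φ x
      rw [hφ, PowerSeries.map_id]
      rfl
    rwa [h5] at h4
  have hmem : PowerSeries.map φ g ∈ AK (AlgebraicClosure K) := by
    rw [hg2]
    exact map_mem _ hf3
  have hsep : (q.map φ).Separable := (PerfectField.separable_iff_squarefree.2 hsq).map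
  have h6 := mainG (fun i => PowerSeries.map φ (x i)) (fun i => PowerSeries.map φ (w i))
    (fun j => PowerSeries.map φ (t j))
    (fun i => by
      show d⁄dX _ (PowerSeries.map φ (w i)) = d⁄dX _ (PowerSeries.map φ (x i)) *
        PowerSeries.map φ (w i)
      rw [← hmapd, ← hmapd, hw, map_mul])
    (fun i h0 => hw0 i (hmapinj (by rw [h0, map_zero])))
    (by
      rintro m ⟨c, hc⟩
      apply hind m
      refine ⟨constantCoeff (∑ i, (m i : K⟦X⟧) * x i), ?_⟩
      apply hmapinj
      have h1 : PowerSeries.map φ (∑ i, (m i : K⟦X⟧) * x i) = C c := by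
        rw [← hc, map_sum]
        refine Finset.sum_congr rfl fun i _ => ?_
        rw [map_mul, map_intCast]
      rw [h1, PowerSeries.map_C]
      congr 1
      have h2 := congrArg constantCoeff h1
      rw [constantCoeff_C, ← coeff_zero_eq_constantCoeff_apply, coeff_map,
        coeff_zero_eq_constantCoeff_apply] at h2
      exact h2.symm)
    (q.map φ) (by rwa [Polynomial.natDegree_map]) hsep.squarefree hqa'
    (PowerSeries.map φ y) (PowerSeries.map φ u) (PowerSeries.map φ s) (by
      rw [← map_pow, hsu, Polynomial.aeval_def, Polynomial.hom_eval₂, Polynomial.aeval_def,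
        Polynomial.eval₂_map]
      congr 1
      ext a
      simp [φ])
    (by rw [← hmapd, ← hmapd, ← hyu, map_mul])
    (by
      rw [← hmapd]
      intro h0
      exact hu0 (hmapinj (by rw [h0, map_zero])))
    (fun i => alg_map φ t _ (hxt i)) (fun i => alg_map φ t _ (hwt i)) (alg_map φ t _ hyt)
    (alg_map φ t _ hut) (PowerSeries.map φ g) hmem (alg_map φ t _ hgt)
  rw [hg1] at h6
  exact Pool.Agent.H96.EA.algebraic_of_expand_rat f e he0 h6

end Pool.Agent.H10.EL
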