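import Mathlib
import Pool.Agent.H10.EX.Res
import Pool.Agent.H10.EL.Defs

/-! Elliptic integrals of the first kind: the residue argument. -/

set_option autoImplicit false

open Polynomial

namespace Pool.Agent.H10.EL

/-- square roots of power series -/
theorem exists_sq_ps {k : Type} [Field k] [CharZero k] [IsAlgClosed k] (g : PowerSeries k)
    (hg : PowerSeries.constantCoeff g ≠ 0) : ∃ s : PowerSeries k, s ^ 2 = g := by
  obtain ⟨c, hc⟩ := IsAlgClosed.exists_pow_nat_eq (PowerSeries.constantCoeff g) (n := 2)
    (by norm_num)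
  set f : PowerSeries k := PowerSeries.C (PowerSeries.constantCoeff g)⁻¹ * g - 1 with hf
  have hf0 : PowerSeries.constantCoeff f = 0 := by
    rw [hf, map_sub, map_mul, PowerSeries.constantCoeff_C, inv_mul_cancel₀ hg, map_one, sub_self]
  have hs := PowerSeries.HasSubst.of_constantCoeff_zero' hf0
  have hb : PowerSeries.binomialSeries k (1 / 2 : k) ^ 2 = 1 + PowerSeries.X := by
    rw [pow_two, ← PowerSeries.binomialSeries_add, add_halves]
    have := PowerSeries.binomialSeries_nat (R := k) (A := k) 1
    rw [Nat.cast_one, pow_one] at this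
    exact this
  refine ⟨PowerSeries.C c * (PowerSeries.binomialSeries k (1 / 2 : k)).subst f, ?_⟩
  have h1 : (PowerSeries.subst f (1 : PowerSeries k) : PowerSeries k) = 1 := by
    rw [← PowerSeries.coe_substAlgHom hs, map_one]
  rw [mul_pow, ← PowerSeries.subst_pow hs, hb, PowerSeries.subst_add hs, PowerSeries.subst_X hs,
    h1, hf, ← map_pow, hc]
  have : PowerSeries.C (PowerSeries.constantCoeff g) *
      PowerSeries.C (PowerSeries.constantCoeff g)⁻¹ = (1 : PowerSeries k) := by
    rw [← map_mul, mul_inv_cancel₀ hg, map_one]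
  linear_combination g * this

/-- formal integration -/
theorem exists_int_ps {k : Type} [Field k] [CharZero k] (g : PowerSeries k) :
    ∃ h : PowerSeries k, PowerSeries.derivative k h = g := by
  refine ⟨PowerSeries.mk fun n => PowerSeries.coeff (n - 1) g / n, ?_⟩
  ext n
  rw [PowerSeries.coeff_derivative, PowerSeries.coeff_mk]
  have : ((n : k) + 1) ≠ 0 := by exact_mod_cast Nat.succ_ne_zero n
  push_cast
  rw [div_mul_cancel₀ _ this]

/-- L3a -/
theorem no_root {k : Type} [Field k] [CharZero k] [IsAlgClosed k] {r : ℕ} (q : k[X])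
    (γ : Fin r → k) (hγ : ∀ e : Fin r → ℤ, ∑ l, γ l * (e l : k) = 0 → e = 0) (α β : Fin r → k[X])
    (hcop : ∀ l, IsCoprime (α l) (β l)) (hN : ∀ l, α l ^ 2 - β l ^ 2 * q ≠ 0) (B S : k[X])
    (hS : S ≠ 0) (c : k) (hid : Cleared q γ α β B S c) (a : k) (ha : q.eval a ≠ 0) (l : Fin r) :
    (α l ^ 2 - β l ^ 2 * q).eval a ≠ 0 := by
  classical
  let J : PowerSeries k →+* (FractionRing (PowerSeries k)) := algebraMap (PowerSeries k) (FractionRing (PowerSeries k))
  have hchar : CharZero (FractionRing (PowerSeries k)) := charZero_of_injective_algebraMap (algebraMap k (FractionRing (PowerSeries k))).injective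
  have hJinj : Function.Injective J := IsFractionRing.injective (PowerSeries k) (FractionRing (PowerSeries k))
  let i : k[X] →+* PowerSeries k :=
    (Polynomial.coeToPowerSeries.ringHom).comp (Polynomial.compRingHom (X + C a))
  have hi : ∀ p : k[X], i p = ((p.comp (X + C a) : k[X]) : PowerSeries k) := fun p => rfl
  have hinj : Function.Injective i := by
    rw [injective_iff_map_eq_zero]
    intro p hp
    rw [hi] at hp
    have h1 : p.comp (X + C a) = 0 := Polynomial.coe_injective k (by rw [hp, Polynomial.coe_zero])
    exact (Polynomial.comp_X_add_C_eq_zero_iff (t := a)).1 h1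
  have hi0 : ∀ p : k[X], PowerSeries.constantCoeff (i p) = p.eval a := by
    intro p
    rw [hi, ← PowerSeries.coeff_zero_eq_constantCoeff_apply, Polynomial.coeff_coe,
      Polynomial.coeff_zero_eq_eval_zero, Polynomial.eval_comp]
    simp
  have hid' : ∀ p : k[X], PowerSeries.derivative k (i p) = i (derivative p) := by
    intro p
    rw [hi, hi, PowerSeries.derivative_coe, Polynomial.derivative_comp]
    simp
  -- the derivation
  obtain ⟨D, hD⟩ := Pool.Agent.H46.GAL.exists_extend k (PowerSeries k) (FractionRing (PowerSeries k)) (PowerSeries.derivative k)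
  have hDi : ∀ p : k[X], D (J (i p)) = J (i (derivative p)) := fun p => by rw [hD, hid']
  have hJC : ∀ x : k, J (i (C x)) = algebraMap k (FractionRing (PowerSeries k)) x := by
    intro x
    rw [hi, Polynomial.C_comp, Polynomial.coe_C,
      IsScalarTower.algebraMap_apply k (PowerSeries k) (FractionRing (PowerSeries k))]
    rfl
  -- the square root
  obtain ⟨s, hs⟩ := exists_sq_ps (i q) (by rw [hi0]; exact ha)
  have hs0 : PowerSeries.constantCoeff s ≠ 0 := by
    intro h
    apply ha
    rw [← hi0, ← hs, map_pow, h]
    norm_num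
  obtain ⟨h, hh⟩ := exists_int_ps (PowerSeries.C c * s⁻¹)
  have hss : s * s⁻¹ = 1 := PowerSeries.mul_inv_cancel s hs0
  have hsJ : J s ≠ 0 := by
    intro h0
    have := congrArg J hss
    rw [map_mul, h0, zero_mul, map_one] at this
    exact zero_ne_one this
  have hsq : J s ^ 2 = J (i q) := by rw [← map_pow, hs]
  have hDs : 2 * J s * D (J s) = J (i (derivative q)) := by
    rw [← hDi, ← hsq, Derivation.leibniz_pow]
    simp only [smul_eq_mul, nsmul_eq_mul, Nat.cast_ofNat]
    ring
  have hDh : D (J h) = algebraMap k (FractionRing (PowerSeries k)) c / J s := by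
    rw [hD, hh, map_mul, eq_div_iff hsJ, mul_assoc, mul_comm (J s⁻¹), ← map_mul, hss, map_one,
      mul_one, IsScalarTower.algebraMap_apply k (PowerSeries k) (FractionRing (PowerSeries k))]
    rfl
  -- the two factors
  let P : Fin r → (FractionRing (PowerSeries k)) := fun l => J (i (α l) + i (β l) * s)
  let M : Fin r → (FractionRing (PowerSeries k)) := fun l => J (i (α l) - i (β l) * s)
  have hPM : ∀ l, P l * M l = J (i (α l ^ 2 - β l ^ 2 * q)) := by
    intro l
    simp only [P, M]
    rw [← map_mul]
    congr 1
    rw [map_sub, map_mul, map_pow, map_pow, ← hs]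
    ring
  have hPM0 : ∀ l, P l * M l ≠ 0 := by
    intro l
    rw [hPM, Ne, map_eq_zero_iff J hJinj, map_eq_zero_iff i hinj]
    exact hN l
  have hP0 : ∀ l, P l ≠ 0 := fun l => left_ne_zero_of_mul (hPM0 l)
  have hM0 : ∀ l, M l ≠ 0 := fun l => right_ne_zero_of_mul (hPM0 l)
  have hS0 : J (i S) ≠ 0 := by
    rw [Ne, map_eq_zero_iff J hJinj, map_eq_zero_iff i hinj]
    exact hS
  have hrep : ∀ l, ∃ (m : ℤ) (u u' : PowerSeries k), u * u' = 1 ∧
      P l / M l = (J PowerSeries.X) ^ m * J u := fun l =>
    Pool.Agent.H10.EX.exists_repr k (P l / M l) (div_ne_zero (hP0 l) (hM0 l))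
  choose m u u' hu he using hrep
  -- logarithmic derivatives
  have hlog : ∀ l, J (i (num q (α l) (β l))) / (P l * M l) =
      J s * (D (P l / M l) / (P l / M l)) := by
    intro l
    have e1 : D (P l / M l) / (P l / M l) = (D (P l) * M l - P l * D (M l)) / (P l * M l) := by
      rw [Derivation.leibniz_div]
      have := hP0 l
      have := hM0 l
      simp only [smul_eq_mul]
      field_simp
    have e2 : D (P l) = J (i (derivative (α l))) + J (i (derivative (β l))) * J s +
        J (i (β l)) * D (J s) := by
      simp only [P]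
      rw [map_add, map_mul, map_add, Derivation.leibniz, hDi, hDi]
      simp only [smul_eq_mul]
      ring
    have e3 : D (M l) = J (i (derivative (α l))) - J (i (derivative (β l))) * J s -
        J (i (β l)) * D (J s) := by
      simp only [M]
      rw [map_sub, map_mul, map_sub, Derivation.leibniz, hDi, hDi]
      simp only [smul_eq_mul]
      ring
    have e4 : P l = J (i (α l)) + J (i (β l)) * J s := by simp only [P, map_add, map_mul]
    have e5 : M l = J (i (α l)) - J (i (β l)) * J s := by simp only [M, map_sub, map_mul]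
    rw [e1, ← mul_div_assoc]
    congr 1
    rw [e2, e3, e4, e5, num]
    simp only [map_sub, map_add, map_mul, map_ofNat]
    rw [← hsq, ← hDs]
    ring
  set T : (FractionRing (PowerSeries k)) := J (i B) / J (i S) * J s - J h with hT
  have hDT : D T = ∑ l, algebraMap k (FractionRing (PowerSeries k)) (γ l / 2) * (D (P l / M l) / (P l / M l)) := by
    obtain ⟨Nf, hNf⟩ : ∃ Nf : Fin r → k[X], ∀ l, Nf l = α l ^ 2 - β l ^ 2 * q :=
      ⟨_, fun _ => rfl⟩
    obtain ⟨nf, hnf⟩ : ∃ nf : Fin r → k[X], ∀ l, nf l = num q (α l) (β l) :=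
      ⟨_, fun _ => rfl⟩
    have hid2 : C (2 * c) * S ^ 2 * ∏ l, Nf l =
        (2 * (derivative B * S - B * derivative S) * q + B * S * derivative q) * ∏ l, Nf l -
          S ^ 2 * ∑ l, C (γ l) * nf l * ∏ j ∈ Finset.univ.erase l, Nf j := by
      simp only [hNf, hnf]
      exact hid
    have hcl := congrArg (fun z => J (i z)) hid2
    simp only [map_sub, map_mul, map_add, map_pow, map_prod, map_sum, map_ofNat, hJC] at hcl
    have hn : ∀ l, J (i (Nf l)) = P l * M l := fun l => by rw [hPM, hNf]
    have hn0 : ∀ l, J (i (Nf l)) ≠ 0 := fun l => by rw [hn]; exact hPM0 l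
    have hQ0 : ∏ l, J (i (Nf l)) ≠ 0 := Finset.prod_ne_zero_iff.2 fun l _ => hn0 l
    have herase : ∀ l, ∏ j ∈ Finset.univ.erase l, J (i (Nf j)) =
        (∏ j, J (i (Nf j))) / J (i (Nf l)) := by
      intro l
      rw [eq_div_iff (hn0 l), Finset.prod_erase_mul _ _ (Finset.mem_univ l)]
    have hsum : ∑ l, algebraMap k (FractionRing (PowerSeries k)) (γ l) * J (i (nf l)) *
        ∏ j ∈ Finset.univ.erase l, J (i (Nf j)) =
        (∏ j, J (i (Nf j))) * (J s * ∑ l, algebraMap k (FractionRing (PowerSeries k)) (γ l) *
          (D (P l / M l) / (P l / M l))) := by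
      rw [Finset.mul_sum, Finset.mul_sum]
      refine Finset.sum_congr rfl fun l _ => ?_
      have := hlog l
      rw [← hn, ← hnf] at this
      rw [herase]
      linear_combination (algebraMap k (FractionRing (PowerSeries k)) (γ l) * ∏ j, J (i (Nf j))) * this
    rw [hsum] at hcl
    set L : (FractionRing (PowerSeries k)) := ∑ l, algebraMap k (FractionRing (PowerSeries k)) (γ l) * (D (P l / M l) / (P l / M l)) with hL
    have hR : ∑ l, algebraMap k (FractionRing (PowerSeries k)) (γ l / 2) * (D (P l / M l) / (P l / M l)) = L / 2 := by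
      rw [hL, Finset.sum_div]
      refine Finset.sum_congr rfl fun l _ => ?_
      rw [map_div₀, map_ofNat]
      ring
    have hcl2 : 2 * algebraMap k (FractionRing (PowerSeries k)) c * J (i S) ^ 2 =
        2 * (J (i (derivative B)) * J (i S) - J (i B) * J (i (derivative S))) * J (i q) +
          J (i B) * J (i S) * J (i (derivative q)) - J (i S) ^ 2 * (J s * L) := by
      have h1 := mul_right_cancel₀ hQ0 (a := 2 * algebraMap k (FractionRing (PowerSeries k)) c * J (i S) ^ 2)
        (c := 2 * (J (i (derivative B)) * J (i S) - J (i B) * J (i (derivative S))) * J (i q) +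
          J (i B) * J (i S) * J (i (derivative q)) - J (i S) ^ 2 * (J s * L))
      refine h1 ?_
      linear_combination hcl
    rw [hR]
    have hDT1 : D T = (J (i (derivative B)) * J (i S) - J (i B) * J (i (derivative S))) /
        J (i S) ^ 2 * J s + J (i B) / J (i S) * D (J s) - algebraMap k (FractionRing (PowerSeries k)) c / J s := by
      rw [hT, map_sub, Derivation.leibniz, Derivation.leibniz_div, hDh, hDi, hDi]
      simp only [smul_eq_mul]
      field_simp
      ring
    rw [hDT1]
    have h2 : (2 : (FractionRing (PowerSeries k))) ≠ 0 := two_ne_zero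
    field_simp
    rw [← hDs, ← hsq] at hcl2
    linear_combination (-1 : (FractionRing (PowerSeries k))) * hcl2
  have hres := Pool.Agent.H10.EX.residue_zero D hD (fun l => γ l / 2) m u u' hu
    (fun l => P l / M l) he T hDT
  have hm : m = 0 := by
    apply hγ
    have : ∑ l, γ l / 2 * (m l : k) = (∑ l, γ l * (m l : k)) / 2 := by
      rw [Finset.sum_div]
      exact Finset.sum_congr rfl fun l _ => by ring
    rw [this] at hres
    have h2 : (2 : k) ≠ 0 := two_ne_zero
    field_simp at hres
    simpa using hres
  intro hroot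
  have hml : m l = 0 := by rw [hm]; rfl
  have e1 := he l
  rw [hml, zpow_zero, one_mul, div_eq_iff (hM0 l)] at e1
  have e2 : i (α l) + i (β l) * s = u l * (i (α l) - i (β l) * s) := by
    apply hJinj
    rw [map_mul]
    exact e1
  have e3 := congrArg PowerSeries.constantCoeff e2
  simp only [map_add, map_sub, map_mul, hi0] at e3
  have e4 : ((α l).eval a + (β l).eval a * PowerSeries.constantCoeff s) *
      ((α l).eval a - (β l).eval a * PowerSeries.constantCoeff s) = 0 := by
    have h1 : PowerSeries.constantCoeff s ^ 2 = q.eval a := by rw [← map_pow, hs, hi0]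
    rw [eval_sub, eval_mul, eval_pow, eval_pow, ← h1] at hroot
    linear_combination hroot
  have hu0 : PowerSeries.constantCoeff (u l) ≠ 0 := by
    intro h0
    have := congrArg PowerSeries.constantCoeff (hu l)
    rw [map_mul, h0, zero_mul, map_one] at this
    exact zero_ne_one this
  have e5 : (α l).eval a - (β l).eval a * PowerSeries.constantCoeff s = 0 := by
    rcases mul_eq_zero.1 e4 with h | h
    · rw [h] at e3
      exact (mul_eq_zero.1 e3.symm).resolve_left hu0
    · exact h
  have e6 : (α l).eval a + (β l).eval a * PowerSeries.constantCoeff s = 0 := by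
    rw [e3, e5, mul_zero]
  have e7 : (α l).eval a = 0 := by
    have : 2 * (α l).eval a = 0 := by linear_combination e5 + e6
    exact (mul_eq_zero.1 this).resolve_left two_ne_zero
  have e8 : (β l).eval a = 0 := by
    have : (β l).eval a * PowerSeries.constantCoeff s = 0 := by linear_combination e6 - e7
    exact (mul_eq_zero.1 this).resolve_right hs0
  obtain ⟨x, y, hxy⟩ := hcop l
  have e9 := congrArg (eval a) hxy
  rw [eval_add, eval_mul, eval_mul, e7, e8, mul_zero, mul_zero, add_zero, eval_one] at e9
  exact zero_ne_one e9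

end Pool.Agent.H10.EL
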