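import Mathlib

/-! Elliptic integrals of the first kind: a Pell type equation has only trivial solutions. -/

set_option autoImplicit false

open Polynomial

namespace Pool.Agent.H10.EL

/-- L3b -/
theorem pell {k : Type} [Field k] [CharZero k] [IsAlgClosed k] (q : k[X]) (hq3 : q.natDegree = 3)
    (hsq : Squarefree q) (α β : k[X]) (hcop : IsCoprime α β)
    (hN : ∀ a, (α ^ 2 - β ^ 2 * q).eval a = 0 → q.eval a = 0) : α = 0 ∨ β = 0 := by
  classical
  by_contra hcon
  push Not at hcon
  obtain ⟨hα, hβ⟩ := hcon
  have hq : q ≠ 0 := by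
    rintro rfl
    simp at hq3
  have h1 : (α ^ 2).natDegree = 2 * α.natDegree := natDegree_pow α 2
  have h2 : (β ^ 2 * q).natDegree = 2 * β.natDegree + 3 := by
    rw [natDegree_mul (pow_ne_zero 2 hβ) hq, natDegree_pow, hq3]
  have h3 : (α ^ 2 - β ^ 2 * q).natDegree = max (2 * α.natDegree) (2 * β.natDegree + 3) := by
    rcases lt_or_gt_of_ne (show (α ^ 2).natDegree ≠ (β ^ 2 * q).natDegree by omega) with h | h
    · rw [natDegree_sub_eq_right_of_natDegree_lt h, h2, max_eq_right (by omega)]
    · rw [natDegree_sub_eq_left_of_natDegree_lt h, h1, max_eq_left (by omega)]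
  set N := α ^ 2 - β ^ 2 * q with hNdef
  have hN0 : N ≠ 0 := by
    intro h
    rw [h, natDegree_zero] at h3
    omega
  have hroot : ∀ a, N.IsRoot a → α.IsRoot a ∧ ¬ (derivative N).IsRoot a := by
    intro a ha
    have hqa : q.eval a = 0 := hN a ha
    have hαa : α.eval a = 0 := by
      have h4 : N.eval a = 0 := ha
      rw [hNdef, eval_sub, eval_mul, eval_pow, hqa, mul_zero, sub_zero] at h4
      exact pow_eq_zero_iff two_ne_zero |>.1 h4
    have hβa : β.eval a ≠ 0 := by
      intro h5
      obtain ⟨s, t, hst⟩ := hcop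
      have h6 := congrArg (eval a) hst
      rw [eval_add, eval_mul, eval_mul, hαa, h5, mul_zero, mul_zero, add_zero, eval_one] at h6
      exact zero_ne_one h6
    have hq' : (derivative q).eval a ≠ 0 := by
      intro h7
      have h8 : 1 < q.rootMultiplicity a :=
        (one_lt_rootMultiplicity_iff_isRoot hq).2 ⟨hqa, h7⟩
      have h9 : (X - C a) ^ 2 ∣ q :=
        (pow_dvd_pow _ h8).trans (pow_rootMultiplicity_dvd q a)
      rw [pow_two] at h9
      exact not_isUnit_X_sub_C a (hsq _ h9)
    refine ⟨hαa, fun h10 => ?_⟩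
    have h11 : (derivative N).eval a = 0 := h10
    rw [hNdef, derivative_sub, derivative_mul, derivative_pow, derivative_pow, eval_sub, eval_add,
      eval_mul, eval_mul, eval_mul, eval_mul, eval_mul, eval_mul, eval_pow, eval_pow, hαa, hqa] at h11
    simp only [Nat.add_one_sub_one, pow_one, zero_mul, mul_zero, zero_add, zero_sub,
      neg_eq_zero, mul_eq_zero] at h11
    rcases h11 with h11 | h11
    · rw [eval_pow] at h11
      exact hβa (pow_eq_zero_iff two_ne_zero |>.1 h11)
    · exact hq' h11
  have hnodup : N.roots.Nodup := by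
    rw [Multiset.nodup_iff_count_le_one]
    intro a
    rw [count_roots]
    by_contra h12
    push Not at h12
    have h13 := (one_lt_rootMultiplicity_iff_isRoot hN0).1 h12
    exact (hroot a h13.1).2 h13.2
  have hle : N.roots ≤ α.roots := by
    rw [Multiset.le_iff_subset hnodup]
    intro a ha
    rw [mem_roots hN0] at ha
    rw [mem_roots hα]
    exact (hroot a ha).1
  have h14 : N.natDegree = N.roots.card := (IsAlgClosed.splits N).natDegree_eq_card_roots
  have h15 := (Multiset.card_le_card hle).trans (card_roots' α)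
  rw [← h14, h3] at h15
  omega

end Pool.Agent.H10.EL
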