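import Pool.Agent.H10.EL.NoRoot
import Pool.Agent.H10.EL.Pell
import Pool.Agent.H10.EL.Exact

/-!
# The polynomial identity behind elliptic integrals of the first kind
-/

set_option autoImplicit false

open Polynomial

namespace Pool.Agent.H10.EL

theorem num_zero {k : Type} [Field k] (q α β : k[X]) (h : α = 0 ∨ β = 0) : num q α β = 0 := by
  unfold num
  rcases h with rfl | rfl <;> simp

/-- The algebraically closed case. -/
theorem ell_poly_closed {k : Type} [Field k] [CharZero k] [IsAlgClosed k] {r : ℕ} (q : k[X])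
    (hq3 : q.natDegree = 3) (hsq : Squarefree q)
    (γ : Fin r → k) (hγ : ∀ e : Fin r → ℤ, ∑ l, γ l * (e l : k) = 0 → e = 0) (α β : Fin r → k[X])
    (hcop : ∀ l, IsCoprime (α l) (β l)) (hN : ∀ l, α l ^ 2 - β l ^ 2 * q ≠ 0) (B S : k[X])
    (hS : S ≠ 0) (c : k) (hid : Cleared q γ α β B S c) : c = 0 := by
  have hz : ∀ l, α l = 0 ∨ β l = 0 := by
    intro l
    refine pell q hq3 hsq (α l) (β l) (hcop l) ?_
    intro a ha
    by_contra hqa
    exact no_root q γ hγ α β hcop hN B S hS c hid a hqa l ha
  refine exact_zero q hq3 hsq B S hS c ?_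
  have hprod : ∏ l, (α l ^ 2 - β l ^ 2 * q) ≠ 0 := Finset.prod_ne_zero_iff.mpr fun l _ => hN l
  have hsum : ∑ l, C (γ l) * num q (α l) (β l) *
      ∏ j ∈ Finset.univ.erase l, (α j ^ 2 - β j ^ 2 * q) = 0 := by
    apply Finset.sum_eq_zero
    intro l _
    rw [num_zero q (α l) (β l) (hz l), mul_zero, zero_mul]
  unfold Cleared at hid
  rw [hsum, mul_zero, sub_zero] at hid
  exact mul_right_cancel₀ hprod hid

/-- L3 -/
theorem ell_poly {k : Type} [Field k] [CharZero k] {r : ℕ} (q : k[X]) (hq3 : q.natDegree = 3)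
    (hsq : Squarefree q)
    (γ : Fin r → k) (hγ : ∀ e : Fin r → ℤ, ∑ l, γ l * (e l : k) = 0 → e = 0) (α β : Fin r → k[X])
    (hcop : ∀ l, IsCoprime (α l) (β l)) (hN : ∀ l, α l ^ 2 - β l ^ 2 * q ≠ 0) (B S : k[X])
    (hS : S ≠ 0) (c : k) (hid : Cleared q γ α β B S c) : c = 0 := by
  let φ : k →+* AlgebraicClosure k := algebraMap k (AlgebraicClosure k)
  have hφ : Function.Injective φ := φ.injective
  have : CharZero (AlgebraicClosure k) := charZero_of_injective_algebraMap hφ
  have hmap : Function.Injective (Polynomial.map φ) := Polynomial.map_injective φ hφ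
  have hkey : φ c = 0 := by
    refine ell_poly_closed (q.map φ) ?_ ?_ (fun l => φ (γ l)) ?_ (fun l => (α l).map φ)
      (fun l => (β l).map φ) ?_ ?_ (B.map φ) (S.map φ) ?_ (φ c) ?_
    · rw [Polynomial.natDegree_map, hq3]
    · have h1 : q.Separable := (PerfectField.separable_iff_squarefree).mpr hsq
      exact (h1.map (f := φ)).squarefree
    · intro e he
      apply hγ
      apply hφ
      rw [map_sum, map_zero, ← he]
      refine Finset.sum_congr rfl fun l _ => ?_
      rw [map_mul, map_intCast]
    · intro l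
      exact (hcop l).map (Polynomial.mapRingHom φ)
    · intro l h
      apply hN l
      apply hmap
      rw [Polynomial.map_zero, ← h]
      simp
    · intro h
      apply hS
      apply hmap
      rw [h, Polynomial.map_zero]
    · unfold Cleared at hid ⊢
      have h1 := congrArg (Polynomial.map φ) hid
      simp only [Polynomial.map_mul, Polynomial.map_sub, Polynomial.map_add, Polynomial.map_pow,
        Polynomial.map_prod, Polynomial.map_sum, Polynomial.map_C, Polynomial.derivative_map,
        Polynomial.map_ofNat, num, map_mul, map_ofNat] at h1 ⊢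
      exact h1
  exact hφ (by rw [hkey, map_zero])

end Pool.Agent.H10.EL
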