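import Mathlib

/-!
A quartic with a root becomes a cubic after `u ↦ 1 / (u - a)`.
-/

set_option autoImplicit false

open Polynomial

namespace Pool.Agent.H10.EL

theorem reverse_reverse_of_coeff {M : Type*} [Field M] {P : M[X]} (h0 : P.coeff 0 ≠ 0) :
    P.reverse.reverse = P := by
  have htr : P.natTrailingDegree = 0 := natTrailingDegree_eq_zero.2 (Or.inr h0)
  have hdeg : P.reverse.natDegree = P.natDegree := by
    rw [reverse_natDegree, htr, Nat.sub_zero]
  unfold reverse at hdeg ⊢
  rw [hdeg]
  ext i
  rw [coeff_reflect, coeff_reflect, revAt_invol]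

theorem squarefree_reverse {M : Type*} [Field M] {P : M[X]} (h0 : P.coeff 0 ≠ 0)
    (hP : Squarefree P) : Squarefree P.reverse := by
  intro d hd
  have hP0 : P ≠ 0 := by
    rintro rfl
    exact h0 (coeff_zero 0)
  have h1 : d.reverse * d.reverse ∣ P := by
    obtain ⟨e, he⟩ := hd
    refine ⟨e.reverse, ?_⟩
    rw [← reverse_reverse_of_coeff h0, he, reverse_mul_of_domain, reverse_mul_of_domain]
  have h2 := hP _ h1
  have hd0 : d.coeff 0 ≠ 0 := by
    intro hcon
    obtain ⟨e, he⟩ := hd
    have h3 := congrArg (fun f : M[X] => f.coeff 0) he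
    simp only [mul_coeff_zero, hcon, zero_mul, coeff_zero_reverse] at h3
    exact hP0 (leadingCoeff_eq_zero.1 h3)
  have htr : d.natTrailingDegree = 0 := natTrailingDegree_eq_zero.2 (Or.inr hd0)
  have h3 : d.natDegree = 0 := by
    have h4 := natDegree_eq_zero_of_isUnit h2
    rwa [reverse_natDegree, htr, Nat.sub_zero] at h4
  rw [eq_C_of_natDegree_eq_zero h3]
  exact isUnit_C.2 (isUnit_iff_ne_zero.2 hd0)

theorem squarefree_taylor {M : Type*} [Field M] (b : M) {f : M[X]} (hf : Squarefree f) :
    Squarefree (taylor b f) := by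
  intro d hd
  have h1 : taylor (-b) d * taylor (-b) d ∣ f := by
    obtain ⟨e, he⟩ := hd
    refine ⟨taylor (-b) e, ?_⟩
    rw [← taylor_mul, ← taylor_mul, ← he, taylor_taylor, neg_add_cancel, taylor_zero]
  have h2 := (hf _ h1).map (taylorAlgHom b)
  have h3 : taylorAlgHom b (taylor (-b) d) = d := by
    change taylor b (taylor (-b) d) = d
    rw [taylor_taylor, add_neg_cancel, taylor_zero]
  rwa [h3] at h2

theorem quartic_to_cubic {A M : Type} [CommRing A] [IsDomain A] [Field M] [CharZero M]
    [Algebra A M] (hinj : Function.Injective (algebraMap A M)) (u w : M) (q : A[X])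
    (hdeg : q.natDegree = 4) (a : A) (ha : q.eval a = 0)
    (hsep : (q.map (algebraMap A M)).Separable) (hw : w ^ 2 = aeval u q)
    (hu : u - algebraMap A M a ≠ 0) :
    ∃ q₁ : A[X], q₁.natDegree = 3 ∧ (q₁.map (algebraMap A M)).Separable ∧
      (w / (u - algebraMap A M a) ^ 2) ^ 2 = aeval (u - algebraMap A M a)⁻¹ q₁ := by
  classical
  set φ := algebraMap A M with hφ
  set T : A[X] := taylor a q with hT
  have hTdeg : T.natDegree = 4 := by rw [hT, natDegree_taylor, hdeg]
  have hT0 : T.coeff 0 = 0 := by rw [hT, taylor_coeff_zero, ha]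
  set p : A[X] := T.divX with hp
  have hTp : T = X * p := by
    have := divX_mul_X_add T
    rw [hT0, C_0, add_zero] at this
    rw [← this, mul_comm]
  have hpdeg : p.natDegree = 3 := by
    rw [hp, natDegree_divX_eq_natDegree_tsub_one, hTdeg]
  have hp0 : p.coeff 0 ≠ 0 := by
    have h1 : p.coeff 0 = (derivative q).eval a := by
      rw [hp, coeff_divX, zero_add, hT, taylor_coeff_one]
    rw [h1]
    intro h2
    have h3 := hsep.eval₂_derivative_ne_zero (RingHom.id M) (x := φ a) (by
      rw [eval₂_id, eval_map, eval₂_at_apply, ha, map_zero])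
    apply h3
    rw [eval₂_id, derivative_map, eval_map, eval₂_at_apply, h2, map_zero]
  have hptr : p.natTrailingDegree = 0 := natTrailingDegree_eq_zero.2 (Or.inr hp0)
  refine ⟨p.reverse, ?_, ?_, ?_⟩
  · rw [reverse_natDegree, hptr, hpdeg]
  · have hmap : p.reverse.map φ = (p.map φ).reverse := by
      unfold reverse
      rw [natDegree_map_eq_of_injective hinj, reflect_map]
    rw [hmap]
    have hq : Squarefree (q.map φ) := hsep.squarefree
    have hTm : T.map φ = taylor (φ a) (q.map φ) := by
      rw [hT, taylor_apply, taylor_apply, Polynomial.map_comp]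
      simp
    have hTs : Squarefree (T.map φ) := by
      rw [hTm]
      exact squarefree_taylor _ hq
    have hps : Squarefree (p.map φ) := by
      refine hTs.squarefree_of_dvd ?_
      rw [hTp, Polynomial.map_mul]
      exact dvd_mul_left _ _
    have h0 : (p.map φ).coeff 0 ≠ 0 := by
      rw [coeff_map]
      exact fun h => hp0 (hinj (by rw [h, map_zero]))
    exact PerfectField.separable_iff_squarefree.2 (squarefree_reverse h0 hps)
  · set s := u - φ a with hs
    have h1 : aeval s T = aeval u q := by
      rw [hT, taylor_apply, aeval_comp]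
      simp [hs, hφ]
    have h2 : aeval s T = s * aeval s p := by
      rw [hTp, map_mul, aeval_X]
    let _ : Invertible s := invertibleOfNonzero hu
    have h3 := eval₂_reverse_mul_pow φ s p
    rw [hpdeg, invOf_eq_inv] at h3
    have h4 : aeval s⁻¹ p.reverse * s ^ 3 = aeval s p := by
      simpa [aeval_def, hφ] using h3
    rw [div_pow, hw, ← h1, h2, ← h4]
    field_simp

end Pool.Agent.H10.EL
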